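import Pool.Agent.Helper60.RT.Defs2
import Pool.Agent.Helper60.LT.A1
import Pool.Agent.Helper78.QL.S1a
import Pool.Agent.Helper33.RT.K

/-!
# RT-E1a: type I arcs, from the blocks B, Q3, C4, K1, E1n
-/

open MeasureTheory Real Set Filter Topology

set_option autoImplicit false

namespace Pool.Agent.Helper60.RT

open Pool.Agent.Helper22.AE
open Pool.Agent.Helper92.GC (dt tp Tq uu tt arc dd sqa m6)
open Pool.Agent.Helper92.DT (m12 IsMul12)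
open Pool.Agent.Helper60.LT (Fr Tf xf yf df vf fr ac co Cut BB)
open Pool.Agent.Helper60.QL (R3 nm pA xA sA TA Cone)
open Pool.Agent.Helper78.QL (card_le mem_arc)

/-- the statement of Q3 -/
def StQ378 : Prop := ∀ {e : Fr} (_ : 0 < df e) {η B : ℝ} (_ : 0 < η) (_ : 1 ≤ B), ∃ C : ℝ, 1 ≤ C ∧
    ∀ (X : ℝ) (N : ℕ) (W D τ : ℝ) (S : Finset (ℤ × ℤ)), 1 ≤ X → 1 ≤ N →
      (N : ℝ) ≤ X → 0 ≤ W → W ≤ 2 → 1 ≤ D → S ⊆ cn N → (∀ k ∈ S, |tt 0 k - τ| ≤ W) → (∀ k ∈ S, D * (Int.gcd k.1 k.2 : ℝ) ≤ k.1) →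
      RI e B X S ≤ ENNReal.ofReal (C * X ^ (1 + η) * (N ^ 2 * W + N / D) ^ 7 * (N ^ 2 * W + (N / D) ^ 2) ^ 2 * (1 + N ^ 3 / X))

/-- the statement of C4 -/
def StC478 : Prop := ∀ {e : Fr} (_ : 0 < df e) {ε B β : ℝ} (_ : 0 < ε) (_ : 1 ≤ B) (_ : 1 ≤ β), ∃ C : ℝ, 1 ≤ C ∧
    ∀ (ι : Type) (P : Finset ι) (I : ι → Finset (ℤ × ℤ)) (n : ι → ℤ × ℤ) (X U σ : ℝ) (N : ℕ), 1 ≤ X → 1 ≤ N → (N : ℝ) ≤ X → 1 ≤ U → 0 < σ → σ ≤ β →
      (∀ p ∈ P, Pr (n p) ∧ U ≤ β * (n p).1 ∧ ((n p).1 : ℝ) ≤ β * U ∧ |sp (n p)| ≤ β ∧ σ ≤ |l1 e (sp (n p)) * l2 e (sp (n p))|) →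
      (∀ p ∈ P, Cut β (I p) ∧ I p ⊆ cn N ∧ ∀ k ∈ I p, ((n p).1 : ℝ) ^ 2 * |tt 0 k - sp (n p)| ≤ 2 ∧ |tt 0 k - sp (n p)| ^ 4 * (X * N) ≤ β) →
      (∀ v : ℤ × ℤ, ((open Classical in P.filter (fun p => n p = v)).card : ℝ) ≤ β) →
        ∑ p ∈ P, RI e B X (I p) ≤ ENNReal.ofReal (C * (X * N) ^ ε * (X / σ) * U ^ (-(10 : ℝ)) * BB N (X * N))

open Classical in
/-- the statement of K1 -/
def StK178 : Prop := ∃ C : ℝ, 1 ≤ C ∧ ∀ (N₁ N₂ r₀ : ℕ) (A : ℝ), 1 ≤ N₁ → N₁ ≤ N₂ → 1 ≤ A →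
    ((((Finset.range N₂).filter (fun r => |ctr N₂ r - ctr N₁ r₀| ≤ 12 / N₁ ∧ ∃ n : ℤ × ℤ, Pr n ∧ A ≤ n.1 ∧ (n.1 : ℝ) ≤ 2 * A ∧ |sp n - ctr N₂ r| ≤ 24 / N₂)).card : ℕ) : ℝ) ≤
      C * (1 + A ^ 2 * (1 / N₁))

/-- the statement of E1n -/
def StNum78 : Prop := ∀ {b : ℝ} (_ : 1 ≤ b), ∃ C : ℝ, 1 ≤ C ∧ ∀ (X N w Q : ℝ), 1 ≤ X → 1 ≤ N → N ≤ X ^ (4 / 9 + 1 / 1000 : ℝ) → 0 < Q → 1 ≤ b * (w ^ 4 * (X * N)) → w ^ 4 * (X * N) ≤ b →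
    0 < w → w ≤ b →
    X * BB N (X * N) ≤ C * FR X N ∧
    X * ((N ^ 2 * w + N) ^ 7 * (N ^ 2 * w + N ^ 2) ^ 2 * (1 + N ^ 3 / X)) ≤ C * FR X N ∧
    X * (w ^ 6 * N ^ 18 * (1 + N ^ 3 / X)) ≤ C * FR X N ∧
    X * min (w * Q ^ 2 * BB N (X * N)) (N ^ 18 * (1 + N ^ 3 / X) / (Q ^ 12 * w ^ 3)) ≤ C * FR X N ∧
    (X ^ (1 / 10 : ℝ) ≤ N → (X * N) ^ (3 / 2 : ℝ) ≤ C * FR X N) ∧ 1 ≤ C * FR X N

/-- the statement of B, the cone -/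
def StCone78 : Prop := ∀ {N : ℕ} (_ : 1 ≤ N), Cone N 2 (cn N) ∧ ∀ k ∈ cn N, (N : ℝ) ≤ k.1 ∧ (k.1 : ℝ) < 2 * N ∧ |tt 0 k| ≤ 1

/-- the statement of B, the multipliers -/
def StCut78 : Prop := ∀ (N : ℕ), Cut (24 ^ 12) (cn N) ∧ ∀ (a r : ℕ), 1 ≤ a → Cut (24 ^ 12) (arc 0 (cn N) a r) ∧
    ∀ (a' r' : ℕ), 1 ≤ a' → Cut (24 ^ 12) (arc 0 (arc 0 (cn N) a r) a' r') ∧ ∀ (a'' r'' : ℕ), 1 ≤ a'' → Cut (24 ^ 12) (arc 0 (arc 0 (arc 0 (cn N) a r) a' r') a'' r'')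

/-! ## Auxiliary facts -/

theorem hoelder78 (P : Finset ℕ) (f : ℕ → ENNReal) : (∑ r ∈ P, f r ^ (1 / 6 : ℝ)) ^ (6 : ℝ) ≤ ((P.card : ENNReal)) ^ 5 * ∑ r ∈ P, f r := by
  have h := ENNReal.rpow_sum_le_const_mul_sum_rpow P (fun r => f r ^ (1 / 6 : ℝ)) (by norm_num : (1 : ℝ) ≤ 6)
  refine h.trans (le_of_eq ?_)
  congr 1
  · rw [show (6 : ℝ) - 1 = (5 : ℕ) by norm_num, ENNReal.rpow_natCast]
  · refine Finset.sum_congr rfl fun r _ => ?_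
    rw [← ENNReal.rpow_mul]
    norm_num

theorem RI_emptyE78 (e : Fr) (B X : ℝ) : RI e B X ∅ = 0 := by
  unfold RI mr m12 tp
  simp

theorem RI_cardE78 (e : Fr) {B X : ℝ} (hB : 1 ≤ B) (hX : 1 ≤ X) (S : Finset (ℤ × ℤ)) :
    RI e B X S ≤ ENNReal.ofReal (B * (B * X) * (S.card : ℝ) ^ 11) := by
  have hX0 : 0 < X := by linarith
  have hB0 : 0 < B := by linarith
  have hc : (0 : ℝ) ≤ (S.card : ℝ) ^ 11 := by positivity
  have h1 : ∀ s : ℝ, ∫⁻ r in Icc (X / B) (B * X), ENNReal.ofReal (mr S r (st s e)) ≤ ENNReal.ofReal ((S.card : ℝ) ^ 11 * (B * X)) := by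
    intro s
    calc ∫⁻ r in Icc (X / B) (B * X), ENNReal.ofReal (mr S r (st s e)) ≤ ∫⁻ r in Icc (X / B) (B * X), ENNReal.ofReal ((S.card : ℝ) ^ 11) := by
          refine lintegral_mono fun r => ENNReal.ofReal_le_ofReal ?_
          exact Pool.Agent.Helper60.LT.m12_le_card S fun k _ => (ee_norm _).le
      _ = ENNReal.ofReal ((S.card : ℝ) ^ 11) * ENNReal.ofReal (B * X - X / B) := by rw [setLIntegral_const, Real.volume_Icc]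
      _ = ENNReal.ofReal ((S.card : ℝ) ^ 11 * (B * X - X / B)) := by rw [ENNReal.ofReal_mul hc]
      _ ≤ ENNReal.ofReal ((S.card : ℝ) ^ 11 * (B * X)) := by
          refine ENNReal.ofReal_le_ofReal (mul_le_mul_of_nonneg_left ?_ hc)
          have : 0 ≤ X / B := by positivity
          linarith
  have h0 : 0 ≤ (S.card : ℝ) ^ 11 * (B * X) := by positivity
  unfold RI
  calc ∫⁻ s in Icc B⁻¹ B, ∫⁻ r in Icc (X / B) (B * X), ENNReal.ofReal (mr S r (st s e)) ≤ ∫⁻ s in Icc B⁻¹ B, ENNReal.ofReal ((S.card : ℝ) ^ 11 * (B * X)) :=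
        lintegral_mono fun s => h1 s
    _ = ENNReal.ofReal ((S.card : ℝ) ^ 11 * (B * X)) * ENNReal.ofReal (B - B⁻¹) := by rw [setLIntegral_const, Real.volume_Icc]
    _ = ENNReal.ofReal ((S.card : ℝ) ^ 11 * (B * X) * (B - B⁻¹)) := by rw [ENNReal.ofReal_mul h0]
    _ ≤ ENNReal.ofReal ((S.card : ℝ) ^ 11 * (B * X) * B) := by
        refine ENNReal.ofReal_le_ofReal (mul_le_mul_of_nonneg_left ?_ h0)
        have : 0 ≤ B⁻¹ := by positivity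
        linarith
    _ = ENNReal.ofReal (B * (B * X) * (S.card : ℝ) ^ 11) := by
        congr 1
        ring

/-- a uniform bound of the moments of the arcs -/
theorem SS_le78 {e : Fr} {B X : ℝ} {G : Finset (ℤ × ℤ)} {N : ℕ} {P : Finset ℕ} {c : ℝ} (hc : 0 ≤ c)
    (h : ∀ r ∈ P, RI e B X (arc 0 G N r) + 1 ≤ ENNReal.ofReal c) : SS e B X G N P ≤ ENNReal.ofReal ((P.card : ℝ) ^ 6 * c) := by
  have hp : (0 : ℝ) ≤ (P.card : ℝ) := Nat.cast_nonneg _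
  unfold SS
  refine (hoelder78 P _).trans ?_
  calc (P.card : ENNReal) ^ 5 * ∑ r ∈ P, (RI e B X (arc 0 G N r) + 1) ≤ (P.card : ENNReal) ^ 5 * ∑ r ∈ P, ENNReal.ofReal c :=
        mul_le_mul' le_rfl (Finset.sum_le_sum h)
    _ = ENNReal.ofReal (P.card : ℝ) ^ 5 * (ENNReal.ofReal (P.card : ℝ) * ENNReal.ofReal c) := by
        rw [Finset.sum_const, nsmul_eq_mul, ENNReal.ofReal_natCast]
    _ = ENNReal.ofReal ((P.card : ℝ) ^ 6 * c) := by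
        rw [← ENNReal.ofReal_pow hp, ← ENNReal.ofReal_mul hp, ← ENNReal.ofReal_mul (by positivity)]
        congr 1
        ring

/-- the size of the frame -/
noncomputable def Ge78 (e : Fr) : ℝ := (|e.1.1| + 11 * |e.2.1| + 1) * (|e.1.2| + 11 * |e.2.2| + 1)

theorem Ge78_one (e : Fr) : 1 ≤ Ge78 e := by
  unfold Ge78
  have h1 : 1 ≤ |e.1.1| + 11 * |e.2.1| + 1 := by
    have := abs_nonneg e.1.1
    have := abs_nonneg e.2.1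
    linarith
  have h2 : 1 ≤ |e.1.2| + 11 * |e.2.2| + 1 := by
    have := abs_nonneg e.1.2
    have := abs_nonneg e.2.2
    linarith
  exact one_le_mul_of_one_le_of_one_le h1 h2

private theorem l1_le78 (e : Fr) {t : ℝ} (ht : |t| ≤ 11) : |l1 e t| ≤ |e.1.1| + 11 * |e.2.1| + 1 := by
  have h1 : |l1 e t| ≤ |e.1.1| + |t| * |e.2.1| := by
    unfold l1
    refine (abs_add_le _ _).trans ?_
    rw [abs_mul]
  have h2 := mul_le_mul_of_nonneg_right ht (abs_nonneg e.2.1)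
  linarith

private theorem l2_le78 (e : Fr) {t : ℝ} (ht : |t| ≤ 11) : |l2 e t| ≤ |e.1.2| + 11 * |e.2.2| + 1 := by
  have h1 : |l2 e t| ≤ |e.1.2| + |t| * |e.2.2| := by
    unfold l2
    refine (abs_add_le _ _).trans ?_
    rw [abs_mul]
  have h2 := mul_le_mul_of_nonneg_right ht (abs_nonneg e.2.2)
  linarith

theorem ll_le78 (e : Fr) {t : ℝ} (ht : |t| ≤ 11) : |l1 e t * l2 e t| ≤ Ge78 e := by
  rw [abs_mul]
  exact mul_le_mul (l1_le78 e ht) (l2_le78 e ht) (abs_nonneg _) (by positivity)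

theorem ll_lip78 (e : Fr) {t t' : ℝ} (ht : |t| ≤ 11) (ht' : |t'| ≤ 11) : |l1 e t * l2 e t - l1 e t' * l2 e t'| ≤ 2 * Ge78 e * |t - t'| := by
  have h0 : l1 e t * l2 e t - l1 e t' * l2 e t' = (t - t') * (e.2.1 * l2 e t + l1 e t' * e.2.2) := by
    unfold l1 l2
    ring
  obtain ⟨a, ha⟩ : ∃ a, a = |e.1.1| + 11 * |e.2.1| + 1 := ⟨_, rfl⟩
  obtain ⟨b, hb⟩ : ∃ b, b = |e.1.2| + 11 * |e.2.2| + 1 := ⟨_, rfl⟩
  have hG : Ge78 e = a * b := by rw [ha, hb]; rfl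
  have ha1 : |e.2.1| ≤ a := by
    rw [ha]
    have := abs_nonneg e.1.1
    have := abs_nonneg e.2.1
    linarith
  have hb1 : |e.2.2| ≤ b := by
    rw [hb]
    have := abs_nonneg e.1.2
    have := abs_nonneg e.2.2
    linarith
  have ha0 : 0 ≤ a := (abs_nonneg _).trans ha1
  have h1 : |e.2.1 * l2 e t| ≤ a * b := by
    rw [abs_mul, hb]
    exact mul_le_mul ha1 (l2_le78 e ht) (abs_nonneg _) ha0
  have h2 : |l1 e t' * e.2.2| ≤ a * b := by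
    rw [abs_mul]
    refine mul_le_mul ?_ hb1 (abs_nonneg _) ha0
    rw [ha]
    exact l1_le78 e ht'
  rw [h0, abs_mul, hG]
  have h3 : |e.2.1 * l2 e t + l1 e t' * e.2.2| ≤ 2 * (a * b) := by
    refine (abs_add_le _ _).trans ?_
    linarith
  calc |t - t'| * |e.2.1 * l2 e t + l1 e t' * e.2.2| ≤ |t - t'| * (2 * (a * b)) := mul_le_mul_of_nonneg_left h3 (abs_nonneg _)
    _ = 2 * (a * b) * |t - t'| := by ring

/-- at most five arcs have their centres near a given slope -/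
theorem five78 {N : ℕ} (hN : 1 ≤ N) {s : ℝ} {P : Finset ℕ} (h : ∀ r ∈ P, |s - ctr N r| ≤ 24 / N) : P.card ≤ 5 := by
  have hN0 : (0 : ℝ) < N := by exact_mod_cast hN
  obtain ⟨x, hx⟩ : ∃ x : ℝ, x = N * (6 + s) / 12 - 5 / 2 := ⟨_, rfl⟩
  have hsub : P ⊆ Finset.Icc ⌈x⌉₊ (⌈x⌉₊ + 4) := by
    intro r hr
    have h1 := abs_le.1 (h r hr)
    have e1 : ctr N r = 12 * ((r : ℝ) + 1 / 2) / N - 6 := rfl
    rw [e1] at h1
    have e2 : (N : ℝ) * (12 * ((r : ℝ) + 1 / 2) / N) = 12 * ((r : ℝ) + 1 / 2) := by field_simp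
    have e3 : (N : ℝ) * (24 / N) = 24 := by field_simp
    have h2 : (N : ℝ) * -(24 / N) ≤ N * (s - (12 * ((r : ℝ) + 1 / 2) / N - 6)) := mul_le_mul_of_nonneg_left h1.1 hN0.le
    have h3 : (N : ℝ) * (s - (12 * ((r : ℝ) + 1 / 2) / N - 6)) ≤ N * (24 / N) := mul_le_mul_of_nonneg_left h1.2 hN0.le
    rw [mul_neg, e3] at h2
    rw [e3] at h3
    have e4 : (N : ℝ) * (s - (12 * ((r : ℝ) + 1 / 2) / N - 6)) = N * (6 + s) - 12 * ((r : ℝ) + 1 / 2) := by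
      have e5 : (N : ℝ) * (s - (12 * ((r : ℝ) + 1 / 2) / N - 6)) = N * (6 + s) - N * (12 * ((r : ℝ) + 1 / 2) / N) := by ring
      rw [e5, e2]
    rw [e4] at h2 h3
    rw [Finset.mem_Icc]
    constructor
    · rw [Nat.ceil_le, hx]
      linarith
    · have h5 : (r : ℝ) ≤ ((⌈x⌉₊ + 4 : ℕ) : ℝ) := by
        push_cast
        have := Nat.le_ceil x
        rw [hx] at this
        rw [hx]
        linarith
      exact_mod_cast h5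
  have h6 := Finset.card_le_card hsub
  rw [Nat.card_Icc] at h6
  omega

theorem Cut.mono78 {C C' : ℝ} {I : Finset (ℤ × ℤ)} (h : Cut C I) (hC : C ≤ C') : Cut C' I := by
  classical
  intro S hS
  obtain ⟨h1, h2⟩ := h S hS
  refine ⟨h1.trans hC, fun a => (h2 a).trans ?_⟩
  exact mul_le_mul_of_nonneg_right (pow_le_pow_left₀ h1 hC 12) (Pool.Agent.Helper92.DT.m12_nonneg _ _)

/-- the parameters of a good sector, in the form used below -/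
theorem par_facts78 {e : Fr} {M : ℕ} {ε₀ X σ : ℝ} {N m₀ m₂ r₀ : ℕ} (hM : 2 ≤ M) (hε₀ : 0 < ε₀) (h : Par e M ε₀ X σ N m₀ m₂ r₀) :
    (N : ℝ) ≤ X ∧ 1 ≤ X * N ∧ X * N ≤ X ^ 2 ∧ X ≤ X * N ∧ 1 ≤ (M : ℝ) ^ m₂ ∧ (M : ℝ) ^ m₀ ≤ (M : ℝ) ^ m₂ ∧ ((M : ℝ) ^ m₂) ^ 4 ≤ X * N ∧
      X * N < ((M : ℝ) ^ m₂) ^ 4 * (M : ℝ) ^ 4 ∧ 1 ≤ σ * (M : ℝ) ^ m₀ ∧ (X * N) ^ ε₀ ≤ σ * (M : ℝ) ^ m₂ := by
  have hX := h.X1
  have hX0 : 0 < X := by linarith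
  have hN : (1 : ℝ) ≤ N := by exact_mod_cast h.N1
  have hM1 : (1 : ℝ) ≤ M := by
    have : 1 ≤ M := by omega
    exact_mod_cast this
  have hNX : (N : ℝ) ≤ X := by
    refine h.hi.trans ?_
    calc X ^ (4 / 9 + 1 / 1000 : ℝ) ≤ X ^ (1 : ℝ) := Real.rpow_le_rpow_of_exponent_le hX (by norm_num)
      _ = X := Real.rpow_one X
  have hK1 : 1 ≤ X * N := one_le_mul_of_one_le_of_one_le hX hN
  have hm : (M : ℝ) ^ m₀ ≤ (M : ℝ) ^ m₂ := pow_le_pow_right₀ hM1 h.m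
  refine ⟨hNX, hK1, ?_, le_mul_of_one_le_right hX0.le hN, one_le_pow₀ hM1, hm, ?_, ?_, ?_, ?_⟩
  · rw [pow_two]
    exact mul_le_mul_of_nonneg_left hNX hX0.le
  · have := h.k1
    rw [mul_comm 4 m₂, pow_mul] at this
    exact this
  · have := h.k2
    rw [pow_add, mul_comm 4 m₂, pow_mul] at this
    exact this
  · exact (Real.one_le_rpow hK1 hε₀.le).trans h.σm
  · exact h.σm.trans (mul_le_mul_of_nonneg_left hm h.σ0.le)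

end Pool.Agent.Helper60.RT
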