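import Pool.Agent.Helper78.RT.ClassI
import Pool.Agent.Helper47.RT.Q3
import Pool.Agent.Helper24.RT.R2

/-!
# RT-E1a: type I arcs (final form)
-/

open MeasureTheory Real Set Filter Topology

set_option autoImplicit false

namespace Pool.Agent.Helper60.RT

open Pool.Agent.Helper22.AE
open Pool.Agent.Helper92.GC (dt tp Tq uu tt arc dd sqa m6)
open Pool.Agent.Helper92.DT (m12 IsMul12 m12_nonneg)
open Pool.Agent.Helper60.LT (Fr Tf xf yf df vf fr ac co Cut BB)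
open Pool.Agent.Helper60.QL (R3 nm pA xA sA TA Cone)

/-- E1a: type I arcs, height about `A` -/
theorem class_I {e : Fr} (he : 0 < df e) {η ε₀ B : ℝ} {M : ℕ} (hη : 0 < η) (hε₀ : 0 < ε₀) (hB : 1 ≤ B) (hM : 2 ≤ M) : ∃ C : ℝ, 1 ≤ C ∧
    ∀ (X σ A : ℝ) (N m₀ m₂ r₀ : ℕ) (P : Finset ℕ), Par e M ε₀ X σ N m₀ m₂ r₀ → 1 ≤ A → 24 * A ^ 2 ≤ (M : ℝ) ^ m₂ → P ⊆ Finset.range (M ^ m₂) →
      (∀ r ∈ P, |ctr (M ^ m₂) r - ctr (M ^ m₀) r₀| ≤ 12 / (M ^ m₀ : ℕ) ∧ ∃ n : ℤ × ℤ, Pr n ∧ A ≤ n.1 ∧ (n.1 : ℝ) ≤ 2 * A ∧ 24 * (n.1 : ℝ) ^ 2 ≤ (M : ℝ) ^ m₂ ∧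
        |sp n - ctr (M ^ m₂) r| ≤ 24 / (M ^ m₂ : ℕ)) →
        SS e B X (arc 0 (cn N) (M ^ m₀) r₀) (M ^ m₂) P ≤ ENNReal.ofReal (C * X ^ η * FR X N) := by
  refine class_I_78 (fun he _ _ hη hB => sec_bd he hη hB) (fun he ε B β hε hB hβ => ?_) he hη hε₀ hB hM
  obtain ⟨C, hC, h⟩ := r2 he hε hB hβ
  refine ⟨C, hC, fun ι P I n X U σ N h1 h2 h3 h4 h5 h6 h7 h8 h9 => h ι P I n X U σ N h1 h2 h3 h4 h5 h6 h7 h8 fun v => ?_⟩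
  convert h9 v

end Pool.Agent.Helper60.RT
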