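import Pool.Agent.Helper60.RT.Defs2
import Pool.Agent.Helper60.LT.A1
import Pool.Agent.Helper78.QL.S1c

/-!
# RT-D5: the iteration
-/

open MeasureTheory Real Set Filter Topology

set_option autoImplicit false

namespace Pool.Agent.Helper60.RT

open Pool.Agent.Helper22.AE
open Pool.Agent.Helper92.GC (dt tp Tq uu tt arc dd sqa m6)
open Pool.Agent.Helper92.DT (m12 IsMul12)
open Pool.Agent.Helper60.LT (Fr Tf xf yf df vf fr ac co Cut BB)
open Pool.Agent.Helper60.QL (R3 nm pA xA sA TA Cone)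
open Pool.Agent.Helper78.QL (arc_arc card_le mem_arc fl_lt)

private theorem RI_empty78 (e : Fr) (B X : ℝ) : RI e B X ∅ = 0 := by
  unfold RI mr m12 tp
  simp

private theorem RI_card78 (e : Fr) {B X : ℝ} (hB : 1 ≤ B) (hX : 1 ≤ X) (S : Finset (ℤ × ℤ)) :
    RI e B X S ≤ ENNReal.ofReal (B * (B * X) * (S.card : ℝ) ^ 11) := by
  have hX0 : 0 < X := by linarith
  have hB0 : 0 < B := by linarith
  have hc : (0 : ℝ) ≤ (S.card : ℝ) ^ 11 := by positivity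
  have h1 : ∀ s : ℝ, ∫⁻ r in Icc (X / B) (B * X), ENNReal.ofReal (mr S r (st s e)) ≤ ENNReal.ofReal ((S.card : ℝ) ^ 11 * (B * X)) := by
    intro s
    calc ∫⁻ r in Icc (X / B) (B * X), ENNReal.ofReal (mr S r (st s e)) ≤ ∫⁻ r in Icc (X / B) (B * X), ENNReal.ofReal ((S.card : ℝ) ^ 11) := by
          refine lintegral_mono fun r => ENNReal.ofReal_le_ofReal ?_
          exact Pool.Agent.Helper60.LT.m12_le_card S fun k _ => (ee_norm _).le
      _ = ENNReal.ofReal ((S.card : ℝ) ^ 11) * ENNReal.ofReal (B * X - X / B) := by rw [setLIntegral_const, Real.volume_Icc]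
      _ = ENNReal.ofReal ((S.card : ℝ) ^ 11 * (B * X - X / B)) := by rw [ENNReal.ofReal_mul hc]
      _ ≤ ENNReal.ofReal ((S.card : ℝ) ^ 11 * (B * X)) := by
          refine ENNReal.ofReal_le_ofReal (mul_le_mul_of_nonneg_left ?_ hc)
          have : 0 ≤ X / B := by positivity
          linarith
  have h0 : 0 ≤ (S.card : ℝ) ^ 11 * (B * X) := by positivity
  unfold RI
  calc ∫⁻ s in Icc B⁻¹ B, ∫⁻ r in Icc (X / B) (B * X), ENNReal.ofReal (mr S r (st s e)) ≤ ∫⁻ s in Icc B⁻¹ B, ENNReal.ofReal ((S.card : ℝ) ^ 11 * (B * X)) :=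
        lintegral_mono fun s => h1 s
    _ = ENNReal.ofReal ((S.card : ℝ) ^ 11 * (B * X)) * ENNReal.ofReal (B - B⁻¹) := by rw [setLIntegral_const, Real.volume_Icc]
    _ = ENNReal.ofReal ((S.card : ℝ) ^ 11 * (B * X) * (B - B⁻¹)) := by rw [ENNReal.ofReal_mul h0]
    _ ≤ ENNReal.ofReal ((S.card : ℝ) ^ 11 * (B * X) * B) := by
        refine ENNReal.ofReal_le_ofReal (mul_le_mul_of_nonneg_left ?_ h0)
        have : 0 ≤ B⁻¹ := by positivity
        linarith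
    _ = ENNReal.ofReal (B * (B * X) * (S.card : ℝ) ^ 11) := by
        congr 1
        ring

/-- the sum over the arcs of level `m` -/
private noncomputable def QR78 (e : Fr) (M : ℕ) (B X : ℝ) (S : Finset (ℤ × ℤ)) (m : ℕ) : ENNReal :=
  ∑ r ∈ Finset.range (M ^ m), (RI e B X (arc 0 S (M ^ m) r) + 1) ^ (1 / 6 : ℝ)

private theorem QR_low78 (e : Fr) {M : ℕ} (B X : ℝ) (S : Finset (ℤ × ℤ)) (m : ℕ) : ((M ^ m : ℕ) : ENNReal) ≤ QR78 e M B X S m := by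
  unfold QR78
  have h : ∀ r ∈ Finset.range (M ^ m), (1 : ENNReal) ≤ (RI e B X (arc 0 S (M ^ m) r) + 1) ^ (1 / 6 : ℝ) := by
    intro r _
    calc (1 : ENNReal) = 1 ^ (1 / 6 : ℝ) := by rw [ENNReal.one_rpow]
      _ ≤ _ := ENNReal.rpow_le_rpow le_add_self (by norm_num)
  calc ((M ^ m : ℕ) : ENNReal) = ∑ r ∈ Finset.range (M ^ m), (1 : ENNReal) := by simp
    _ ≤ _ := Finset.sum_le_sum h

private theorem QR_ge78 (e : Fr) {M : ℕ} (B X : ℝ) (S : Finset (ℤ × ℤ)) (m : ℕ) :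
    ∑ r ∈ Finset.range (M ^ m), RI e B X (arc 0 S (M ^ m) r) ^ (1 / 6 : ℝ) ≤ QR78 e M B X S m := by
  unfold QR78
  exact Finset.sum_le_sum fun r _ => ENNReal.rpow_le_rpow le_self_add (by norm_num)

private theorem Gd_sub78 {e : Fr} {σ Λ : ℝ} {S T : Finset (ℤ × ℤ)} (h : Gd e σ Λ S) (hT : T ⊆ S) : Gd e σ Λ T := fun k hk => h k (hT hk)

private theorem arc_sub78 {β : ℝ} (S : Finset (ℤ × ℤ)) (N j : ℕ) : arc β S N j ⊆ S := fun _ hk => (mem_arc.1 hk).1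

private theorem QR_step78 {e : Fr} {ε Λ B C B' E σ : ℝ} {M n m₁ : ℕ} (hε : 0 < ε) (hM : 2 ≤ M) (hC : 1 ≤ C) (hE : 1 ≤ E) (hs : StepR e ε 2 Λ M n B C B' E m₁)
    {m m' : ℕ} {X H κ P : ℝ} {S : Finset (ℤ × ℤ)} (hm₁ : m₁ ≤ m) (hm : m ≤ m') (hX : 1 ≤ X) (hH : 1 ≤ H) (hκ : C ≤ κ) (hS : Cone H 2 S) (hσ : 0 < σ)
    (hG : Gd e σ Λ S) (h1 : C * κ * (M : ℝ) ^ (3 * m') ≤ σ * (X * H)) (h2 : C * κ * (M : ℝ) ^ (3 * m') ≤ σ * (M : ℝ) ^ (4 * m))
    (hP : (M : ℝ) ^ (ε * (m' : ℝ)) ≤ P) (ht : E * (X / σ) * (S.card : ℝ) ^ 12 * κ⁻¹ ^ n * ((M : ℝ) ^ m * (M : ℝ) ^ m') ^ 6 ≤ 1) :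
    QR78 e M B X S m ≤ ENNReal.ofReal (3 * C * κ * P) * QR78 e M B' X S m' := by
  have hM0 : (1 : ℝ) ≤ M := by
    have : 1 ≤ M := by omega
    exact_mod_cast this
  have hκ1 : 1 ≤ κ := hC.trans hκ
  obtain ⟨t, htd⟩ : ∃ t, t = E * (X / σ) * (S.card : ℝ) ^ 12 * κ⁻¹ ^ n := ⟨_, rfl⟩
  have ht0 : 0 ≤ t := by rw [htd]; positivity
  obtain ⟨K, hK⟩ : ∃ K, K = ENNReal.ofReal (C * κ * P) := ⟨_, rfl⟩
  have hP1 : 1 ≤ P := le_trans (Real.one_le_rpow hM0 (by positivity)) hP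
  have hK1 : 1 ≤ K := by
    rw [hK, ENNReal.one_le_ofReal]
    have : 1 ≤ C * κ := one_le_mul_of_one_le_of_one_le hC hκ1
    exact one_le_mul_of_one_le_of_one_le this hP1
  have hone : ∀ r ∈ Finset.range (M ^ m), (RI e B X (arc 0 S (M ^ m) r) + 1) ^ (1 / 6 : ℝ) ≤
      K * ∑ r' ∈ Finset.range (M ^ m'), (RI e B' X (arc 0 (arc 0 S (M ^ m) r) (M ^ m') r') ^ (1 / 6 : ℝ) + ENNReal.ofReal t ^ (1 / 6 : ℝ)) + 1 := by
    intro r _
    refine (ENNReal.rpow_add_le_add_rpow _ _ (by norm_num) (by norm_num)).trans ?_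
    rw [ENNReal.one_rpow]
    refine add_le_add ?_ le_rfl
    refine (hs m m' r X H κ σ S hm₁ hm hX hH hκ hS hσ (Gd_sub78 hG (arc_sub78 _ _ _)) h1 h2).trans ?_
    rw [← htd, hK]
    refine mul_le_mul' (ENNReal.ofReal_le_ofReal (by gcongr)) ?_
    exact Finset.sum_le_sum fun r' _ => ENNReal.rpow_add_le_add_rpow _ _ (by norm_num) (by norm_num)
  have hsum : QR78 e M B X S m ≤ K * (∑ r ∈ Finset.range (M ^ m), ∑ r' ∈ Finset.range (M ^ m'), RI e B' X (arc 0 (arc 0 S (M ^ m) r) (M ^ m') r') ^ (1 / 6 : ℝ)) +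
      K * (((M ^ m : ℕ) : ENNReal) * (((M ^ m' : ℕ) : ENNReal) * ENNReal.ofReal t ^ (1 / 6 : ℝ))) + ((M ^ m : ℕ) : ENNReal) := by
    unfold QR78
    refine (Finset.sum_le_sum hone).trans (le_of_eq ?_)
    rw [Finset.sum_add_distrib, ← Finset.mul_sum, Finset.sum_const, Finset.card_range, nsmul_eq_mul, mul_one]
    congr 1
    rw [← mul_add]
    congr 1
    simp only [Finset.sum_add_distrib, Finset.sum_const, Finset.card_range, nsmul_eq_mul]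
  have hdbl : ∑ r ∈ Finset.range (M ^ m), ∑ r' ∈ Finset.range (M ^ m'), RI e B' X (arc 0 (arc 0 S (M ^ m) r) (M ^ m') r') ^ (1 / 6 : ℝ) ≤ QR78 e M B' X S m' := by
    rw [Finset.sum_comm]
    refine le_trans (Finset.sum_le_sum fun r' _ => ?_) (QR_ge78 e B' X S m')
    have e1 : ∀ r : ℕ, RI e B' X (arc 0 (arc 0 S (M ^ m) r) (M ^ m') r') ^ (1 / 6 : ℝ) =
        if r' / M ^ (m' - m) = r then RI e B' X (arc 0 S (M ^ m') r') ^ (1 / 6 : ℝ) else 0 := by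
      intro r
      rw [arc_arc (by omega) hm]
      split_ifs
      · rfl
      · rw [RI_empty78, ENNReal.zero_rpow_of_pos (by norm_num)]
    simp only [e1]
    rw [Finset.sum_ite_eq]
    split_ifs
    · exact le_rfl
    · exact zero_le
  have htail : ((M ^ m : ℕ) : ENNReal) * (((M ^ m' : ℕ) : ENNReal) * ENNReal.ofReal t ^ (1 / 6 : ℝ)) ≤ 1 := by
    have c1 : ((M ^ m : ℕ) : ENNReal) = ENNReal.ofReal ((M : ℝ) ^ m) := by
      rw [← ENNReal.ofReal_natCast]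
      push_cast
      rfl
    have c2 : ((M ^ m' : ℕ) : ENNReal) = ENNReal.ofReal ((M : ℝ) ^ m') := by
      rw [← ENNReal.ofReal_natCast]
      push_cast
      rfl
    rw [c1, c2, ENNReal.ofReal_rpow_of_nonneg ht0 (by norm_num), ← ENNReal.ofReal_mul (by positivity), ← ENNReal.ofReal_mul (by positivity),
      ENNReal.ofReal_le_one]
    have h3 : ((M : ℝ) ^ m * ((M : ℝ) ^ m' * t ^ (1 / 6 : ℝ))) ^ 6 ≤ 1 := by
      have h4 : (t ^ (1 / 6 : ℝ)) ^ 6 = t := by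
        rw [← Real.rpow_natCast, ← Real.rpow_mul ht0]
        norm_num
      calc ((M : ℝ) ^ m * ((M : ℝ) ^ m' * t ^ (1 / 6 : ℝ))) ^ 6 = (t ^ (1 / 6 : ℝ)) ^ 6 * ((M : ℝ) ^ m * (M : ℝ) ^ m') ^ 6 := by ring
        _ = t * ((M : ℝ) ^ m * (M : ℝ) ^ m') ^ 6 := by rw [h4]
        _ ≤ 1 := by rw [htd]; exact ht
    by_contra hcon
    push Not at hcon
    have := one_lt_pow₀ hcon (by norm_num : (6 : ℕ) ≠ 0)
    linarith
  have hmm : ((M ^ m : ℕ) : ENNReal) ≤ QR78 e M B' X S m' := by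
    refine le_trans ?_ (QR_low78 e B' X S m')
    exact_mod_cast Nat.pow_le_pow_right (by omega) hm
  have hQ1 : 1 ≤ QR78 e M B' X S m' := by
    refine le_trans ?_ (QR_low78 e B' X S m')
    exact_mod_cast Nat.one_le_pow _ _ (by omega)
  have e3 : ENNReal.ofReal (3 * C * κ * P) = K + K + K := by
    rw [hK, ← ENNReal.ofReal_add (by positivity) (by positivity), ← ENNReal.ofReal_add (by positivity) (by positivity)]
    congr 1
    ring
  rw [e3, add_mul, add_mul]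
  refine hsum.trans (add_le_add (add_le_add (mul_le_mul' le_rfl hdbl) (mul_le_mul' le_rfl (htail.trans hQ1))) ?_)
  calc ((M ^ m : ℕ) : ENNReal) ≤ 1 * QR78 e M B' X S m' := by rw [one_mul]; exact hmm
    _ ≤ K * QR78 e M B' X S m' := mul_le_mul' hK1 le_rfl

/-- finitely many steps -/
private theorem chain78 {e : Fr} {ε Λ : ℝ} {M n : ℕ} (hε : 0 < ε) (hM : 2 ≤ M)
    (hs : ∀ B : ℝ, 1 ≤ B → ∃ C B' E : ℝ, ∃ m₁ : ℕ, 1 ≤ C ∧ B ≤ B' ∧ 1 ≤ E ∧ StepR e ε 2 Λ M n B C B' E m₁) (L : ℕ) :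
    ∀ B : ℝ, 1 ≤ B → ∃ C B' E : ℝ, ∃ m₁ : ℕ, 1 ≤ C ∧ B ≤ B' ∧ 1 ≤ E ∧ ∀ (μ : ℕ → ℕ) (X H κ P σ : ℝ) (S : Finset (ℤ × ℤ)),
      m₁ ≤ μ 0 → (∀ j, μ j ≤ μ (j + 1)) → 1 ≤ X → 1 ≤ H → C ≤ κ → Cone H 2 S → 0 < σ → Gd e σ Λ S → 1 ≤ P →
      (∀ j < L, C * κ * (M : ℝ) ^ (3 * μ (j + 1)) ≤ σ * (X * H)) →
      (∀ j < L, C * κ * (M : ℝ) ^ (3 * μ (j + 1)) ≤ σ * (M : ℝ) ^ (4 * μ j)) → (∀ j < L, (M : ℝ) ^ (ε * (μ (j + 1) : ℝ)) ≤ P) →
      (∀ j < L, E * (X / σ) * (S.card : ℝ) ^ 12 * κ⁻¹ ^ n * ((M : ℝ) ^ μ j * (M : ℝ) ^ μ (j + 1)) ^ 6 ≤ 1) →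
      QR78 e M B X S (μ 0) ≤ ENNReal.ofReal ((C * κ * P) ^ L) * QR78 e M B' X S (μ L) := by
  induction L with
  | zero =>
    intro B hB
    refine ⟨1, B, 1, 0, le_rfl, le_rfl, le_rfl, ?_⟩
    intro μ X H κ P σ S _ _ _ _ _ _ _ _ _ _ _ _ _
    rw [pow_zero, ENNReal.ofReal_one, one_mul]
  | succ L ih =>
    intro B hB
    obtain ⟨C₁, B₁, E₁, n₁, hC₁, hB₁, hE₁, hs₁⟩ := hs B hB
    obtain ⟨C₂, B₂, E₂, n₂, hC₂, hB₂, hE₂, hs₂⟩ := ih B₁ (hB.trans hB₁)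
    refine ⟨max (3 * C₁) C₂, B₂, max E₁ E₂, max n₁ n₂, le_max_of_le_right hC₂, hB₁.trans hB₂, le_max_of_le_left hE₁, ?_⟩
    intro μ X H κ P σ S hμ0 hμ hX hH hκ hS hσ hG hP h1 h2 h3 h4
    obtain ⟨C, hC⟩ : ∃ C, C = max (3 * C₁) C₂ := ⟨_, rfl⟩
    obtain ⟨E, hE⟩ : ∃ E, E = max E₁ E₂ := ⟨_, rfl⟩
    rw [← hC] at hκ h1 h2
    rw [← hE] at h4
    rw [← hC]
    have hC3 : 3 * C₁ ≤ C := by rw [hC]; exact le_max_left _ _
    have hC2 : C₂ ≤ C := by rw [hC]; exact le_max_right _ _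
    have hE1 : E₁ ≤ E := by rw [hE]; exact le_max_left _ _
    have hE2 : E₂ ≤ E := by rw [hE]; exact le_max_right _ _
    have hC1 : C₁ ≤ C := by linarith
    have hCp : 0 < C := by linarith
    have hκ0 : 0 < κ := by linarith
    have hM0 : (0 : ℝ) < M := by
      have : 0 < M := by omega
      exact_mod_cast this
    have st1 : QR78 e M B X S (μ 0) ≤ ENNReal.ofReal (3 * C₁ * κ * P) * QR78 e M B₁ X S (μ 1) := by
      refine QR_step78 hε hM hC₁ hE₁ hs₁ ((le_max_left _ _).trans hμ0) (hμ 0) hX hH (hC1.trans hκ) hS hσ hG ?_ ?_ (h3 0 (by omega)) ?_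
      · refine le_trans ?_ (h1 0 (by omega))
        gcongr
      · refine le_trans ?_ (h2 0 (by omega))
        gcongr
      · refine le_trans ?_ (h4 0 (by omega))
        gcongr
    have st2 : QR78 e M B₁ X S (μ 1) ≤ ENNReal.ofReal ((C₂ * κ * P) ^ L) * QR78 e M B₂ X S (μ (L + 1)) := by
      refine hs₂ (fun j => μ (j + 1)) X H κ P σ S ?_ (fun j => hμ (j + 1)) hX hH (hC2.trans hκ) hS hσ hG hP ?_ ?_ ?_ ?_
      · exact ((le_max_right _ _).trans hμ0).trans (hμ 0)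
      · intro j hj
        refine le_trans ?_ (h1 (j + 1) (by omega))
        gcongr
      · intro j hj
        refine le_trans ?_ (h2 (j + 1) (by omega))
        gcongr
      · intro j hj
        exact h3 (j + 1) (by omega)
      · intro j hj
        refine le_trans ?_ (h4 (j + 1) (by omega))
        gcongr
    refine st1.trans ((mul_le_mul' le_rfl st2).trans ?_)
    rw [← mul_assoc, ← ENNReal.ofReal_mul (by positivity)]
    refine mul_le_mul' (ENNReal.ofReal_le_ofReal ?_) le_rfl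
    rw [pow_succ']
    gcongr

/-- D5: the iteration -/
theorem iterR {e : Fr} (he : 0 < df e) {η ε₀ B Λ : ℝ} (hη : 0 < η) (hε₀ : 0 < ε₀) (hB : 1 ≤ B) (hΛ : 1 ≤ Λ)
    (hs : ∀ ε : ℝ, 0 < ε → ∃ M : ℕ, 2 ≤ M ∧ ∀ (n : ℕ) (B : ℝ), 1 ≤ B → ∃ C B' E : ℝ, ∃ m₁ : ℕ, 1 ≤ C ∧ B ≤ B' ∧ 1 ≤ E ∧ StepR e ε 2 Λ M n B C B' E m₁) :
    ∃ (M : ℕ) (C B' : ℝ), 2 ≤ M ∧ 1 ≤ C ∧ B ≤ B' ∧ ∀ (X H σ : ℝ) (S : Finset (ℤ × ℤ)) (m₀ m₂ r₀ : ℕ), 1 ≤ X → 1 ≤ H → H ≤ X → Cone H 2 S → 0 < σ →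
      Gd e σ Λ (arc 0 S (M ^ m₀) r₀) → m₀ ≤ m₂ → (X * H) ^ ε₀ ≤ σ * (M : ℝ) ^ m₀ → (M : ℝ) ^ (4 * m₂) ≤ X * H →
        RI e B X (arc 0 S (M ^ m₀) r₀) ^ (1 / 6 : ℝ) ≤ ENNReal.ofReal (C * X ^ η) *
          ∑ r ∈ Finset.range (M ^ m₂), (RI e B' X (arc 0 (arc 0 S (M ^ m₀) r₀) (M ^ m₂) r) + 1) ^ (1 / 6 : ℝ) := by
  obtain ⟨L, hL⟩ : ∃ L : ℕ, L = ⌈3 / ε₀⌉₊ := ⟨_, rfl⟩
  have hL3 : 3 ≤ ε₀ * L := by
    have : 3 / ε₀ ≤ L := by rw [hL]; exact Nat.le_ceil _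
    rwa [div_le_iff₀ hε₀, mul_comm] at this
  have hL0 : (0 : ℝ) < L := by
    by_contra hcon
    push Not at hcon
    have : ε₀ * L ≤ 0 := mul_nonpos_of_nonneg_of_nonpos hε₀.le hcon
    linarith
  obtain ⟨c, hc⟩ : ∃ c, c = min (ε₀ / 4) (η / (2 * L)) := ⟨_, rfl⟩
  have hc0 : 0 < c := by rw [hc]; positivity
  have hcε : c ≤ ε₀ / 4 := by rw [hc]; exact min_le_left _ _
  have hcη : 2 * L * c ≤ η := by
    have h1 : c ≤ η / (2 * L) := by rw [hc]; exact min_le_right _ _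
    rw [le_div_iff₀ (by positivity)] at h1
    linarith
  obtain ⟨M, hM, hs⟩ := hs (2 * c) (by positivity)
  obtain ⟨n, hn⟩ : ∃ n : ℕ, n = ⌈40 / c⌉₊ := ⟨_, rfl⟩
  have hn40 : 40 ≤ c * n := by
    have : 40 / c ≤ n := by rw [hn]; exact Nat.le_ceil _
    rwa [div_le_iff₀ hc0, mul_comm] at this
  obtain ⟨C₁, B', E, m₁, hC₁, hB', hE, hch⟩ := chain78 (by positivity : 0 < 2 * c) hM (hs n) L B hB
  have hM1 : (1 : ℝ) < M := by
    have : 1 < M := by omega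
    exact_mod_cast this
  have hM0 : (0 : ℝ) < M := by linarith
  obtain ⟨G, hG⟩ : ∃ G, G = (|e.1.1| + 2 * |e.2.1|) * (|e.1.2| + 2 * |e.2.2|) + 1 := ⟨_, rfl⟩
  have hG0 : 0 < G := by rw [hG]; positivity
  have ev : ∀ᶠ X : ℝ in atTop, C₁ ≤ X ^ c ∧ C₁ ≤ X ^ (ε₀ / 4) ∧ G * (M : ℝ) ^ m₁ ≤ X ^ ε₀ ∧ (M : ℝ) ≤ X ^ (ε₀ / 6) ∧ E * 196 ^ 12 ≤ X := by
    refine (((tendsto_rpow_atTop hc0).eventually_ge_atTop C₁)).and (((tendsto_rpow_atTop (by positivity : 0 < ε₀ / 4)).eventually_ge_atTop _).and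
      (((tendsto_rpow_atTop hε₀).eventually_ge_atTop _).and
      (((tendsto_rpow_atTop (by positivity : 0 < ε₀ / 6)).eventually_ge_atTop _).and (eventually_ge_atTop _))))
  obtain ⟨X₁, hX₁⟩ := eventually_atTop.1 ev
  obtain ⟨X₀, hX₀d⟩ : ∃ X₀, X₀ = max X₁ 1 := ⟨_, rfl⟩
  have hX₀1 : 1 ≤ X₀ := by rw [hX₀d]; exact le_max_right _ _
  have hX₀ : ∀ X, X₀ ≤ X → C₁ ≤ X ^ c ∧ C₁ ≤ X ^ (ε₀ / 4) ∧ G * (M : ℝ) ^ m₁ ≤ X ^ ε₀ ∧ (M : ℝ) ≤ X ^ (ε₀ / 6) ∧ E * 196 ^ 12 ≤ X :=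
    fun X hX => hX₁ X (le_trans (by rw [hX₀d]; exact le_max_left _ _) hX)
  obtain ⟨C, hC⟩ : ∃ C, C = max (C₁ ^ L) (B * (B * X₀) * (196 * X₀ ^ 2) ^ 11 + 1) := ⟨_, rfl⟩
  have hCa : C₁ ^ L ≤ C := by rw [hC]; exact le_max_left _ _
  have hCb : B * (B * X₀) * (196 * X₀ ^ 2) ^ 11 + 1 ≤ C := by rw [hC]; exact le_max_right _ _
  have hB0 : 0 < B := by linarith
  have hX₀0 : 0 < X₀ := by linarith
  have hC1 : 1 ≤ C := by
    have : 0 ≤ B * (B * X₀) * (196 * X₀ ^ 2) ^ 11 := by positivity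
    linarith
  refine ⟨M, C, B', hM, hC1, hB', ?_⟩
  intro X H σ S m₀ m₂ r₀ hX hH hHX hS hσ hgd hm hlow hhigh
  obtain ⟨S₀, hS₀⟩ : ∃ S₀, S₀ = arc 0 S (M ^ m₀) r₀ := ⟨_, rfl⟩
  rw [← hS₀] at hgd ⊢
  have hX0 : 0 < X := by linarith
  have hH0 : 0 < H := by linarith
  have hXη : 1 ≤ X ^ η := Real.one_le_rpow hX hη.le
  have hsub : S₀ ⊆ S := by rw [hS₀]; exact arc_sub78 _ _ _
  have hcone : Cone H 2 S₀ := fun k hk => hS k (hsub hk)
  have hcard : (S₀.card : ℝ) ≤ 196 * X ^ 2 := by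
    calc (S₀.card : ℝ) ≤ 49 * 2 ^ 2 * H ^ 2 := card_le hH (by norm_num) hcone
      _ ≤ 49 * 2 ^ 2 * X ^ 2 := by gcongr
      _ = 196 * X ^ 2 := by ring
  change RI e B X S₀ ^ (1 / 6 : ℝ) ≤ ENNReal.ofReal (C * X ^ η) * QR78 e M B' X S₀ m₂
  rcases S₀.eq_empty_or_nonempty with hemp | hne
  · rw [hemp, RI_empty78, ENNReal.zero_rpow_of_pos (by norm_num)]
    exact zero_le
  rcases lt_or_ge X X₀ with hlt | hge
  · have h1 : RI e B X S₀ ≤ ENNReal.ofReal C := by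
      refine (RI_card78 e hB hX S₀).trans (ENNReal.ofReal_le_ofReal ?_)
      calc B * (B * X) * (S₀.card : ℝ) ^ 11 ≤ B * (B * X₀) * (196 * X₀ ^ 2) ^ 11 := by
            have h2 : (S₀.card : ℝ) ≤ 196 * X₀ ^ 2 := hcard.trans (by gcongr)
            gcongr
        _ ≤ C := by linarith
    have h2 : (1 : ENNReal) ≤ ENNReal.ofReal C := by rw [ENNReal.one_le_ofReal]; exact hC1
    calc RI e B X S₀ ^ (1 / 6 : ℝ) ≤ ENNReal.ofReal C ^ (1 / 6 : ℝ) := ENNReal.rpow_le_rpow h1 (by norm_num)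
      _ ≤ ENNReal.ofReal C ^ (1 : ℝ) := ENNReal.rpow_le_rpow_of_exponent_le h2 (by norm_num)
      _ = ENNReal.ofReal C * 1 := by rw [ENNReal.rpow_one, mul_one]
      _ ≤ ENNReal.ofReal (C * X ^ η) * QR78 e M B' X S₀ m₂ := by
        refine mul_le_mul' (ENNReal.ofReal_le_ofReal (le_mul_of_one_le_right (by linarith) hXη)) ?_
        refine le_trans ?_ (QR_low78 e B' X S₀ m₂)
        exact_mod_cast Nat.one_le_pow _ _ (by omega)
  · obtain ⟨ha, hb, hg, hd, hf⟩ := hX₀ X hge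
    obtain ⟨K, hK⟩ : ∃ K, K = X * H := ⟨_, rfl⟩
    rw [← hK] at hlow hhigh
    have hXK : X ≤ K := by rw [hK]; exact le_mul_of_one_le_right hX0.le hH
    have hK1 : 1 ≤ K := hX.trans hXK
    have hK0 : 0 < K := by linarith
    have hKX : K ≤ X ^ 2 := by rw [hK, pow_two]; exact mul_le_mul_of_nonneg_left hHX hX0.le
    obtain ⟨κ, hκ⟩ : ∃ κ, κ = X ^ c := ⟨_, rfl⟩
    have hκ1 : 1 ≤ κ := by rw [hκ]; exact Real.one_le_rpow hX hc0.le
    have hκpow : ∀ i : ℕ, κ ^ i = X ^ (i * c) := by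
      intro i
      rw [hκ, ← Real.rpow_natCast, ← Real.rpow_mul hX0.le]
      congr 1
      ring
    have hCκ1 : 1 ≤ C₁ * κ := one_le_mul_of_one_le_of_one_le hC₁ hκ1
    have hCκ0 : 0 < C₁ * κ := by linarith
    have hCκ : C₁ * κ ≤ K ^ (ε₀ / 2) := by
      calc C₁ * κ ≤ X ^ (ε₀ / 4) * X ^ (ε₀ / 4) := by
            refine mul_le_mul hb ?_ (by linarith) (by positivity)
            rw [hκ]
            exact Real.rpow_le_rpow_of_exponent_le hX hcε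
        _ = X ^ (ε₀ / 2) := by
            rw [← Real.rpow_add hX0]
            congr 1
            ring
        _ ≤ K ^ (ε₀ / 2) := Real.rpow_le_rpow hX0.le hXK (by positivity)
    have hKh : K ^ (ε₀ / 2) * K ^ (ε₀ / 2) = K ^ ε₀ := by
      rw [← Real.rpow_add hK0]
      congr 1
      ring
    have hKh1 : 1 ≤ K ^ (ε₀ / 2) := Real.one_le_rpow hK1 (by positivity)
    -- the bound of `σ`
    obtain ⟨k, hk⟩ := hne
    have hσG : σ ≤ G := by
      obtain ⟨g1, g2, g3⟩ := hcone k hk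
      have g0 : (0 : ℝ) < k.1 := lt_of_lt_of_le (by positivity) g1
      have hu : uu 0 k = k.1 := by unfold uu; ring
      have ht : |tt 0 k| ≤ 2 := by
        unfold tt
        rw [hu, abs_div, abs_of_pos g0, div_le_iff₀ g0]
        exact g3
      have h1 : |l1 e (tt 0 k)| ≤ |e.1.1| + 2 * |e.2.1| := by
        unfold l1
        refine (abs_add_le _ _).trans ?_
        rw [abs_mul]
        gcongr
      have h2 : |l2 e (tt 0 k)| ≤ |e.1.2| + 2 * |e.2.2| := by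
        unfold l2
        refine (abs_add_le _ _).trans ?_
        rw [abs_mul]
        gcongr
      calc σ ≤ |l1 e (tt 0 k) * l2 e (tt 0 k)| := (hgd k hk).1
        _ = |l1 e (tt 0 k)| * |l2 e (tt 0 k)| := abs_mul _ _
        _ ≤ (|e.1.1| + 2 * |e.2.1|) * (|e.1.2| + 2 * |e.2.2|) := mul_le_mul h1 h2 (abs_nonneg _) (by positivity)
        _ ≤ G := by rw [hG]; linarith
    have hm₁ : m₁ ≤ m₀ := by
      have h1 : G * (M : ℝ) ^ m₁ ≤ G * (M : ℝ) ^ m₀ := by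
        calc G * (M : ℝ) ^ m₁ ≤ X ^ ε₀ := hg
          _ ≤ K ^ ε₀ := Real.rpow_le_rpow hX0.le hXK hε₀.le
          _ ≤ σ * (M : ℝ) ^ m₀ := hlow
          _ ≤ G * (M : ℝ) ^ m₀ := by gcongr
      have h2 := le_of_mul_le_mul_left h1 hG0
      exact (pow_le_pow_iff_right₀ hM1).1 h2
    -- the step of the levels
    obtain ⟨d, hda, hdb⟩ := exists_nat_pow_near (Real.one_le_rpow hK1 (by positivity : 0 ≤ ε₀ / 6)) hM1
    have hd1 : 1 ≤ d := by
      have h1 : (M : ℝ) ^ 1 < (M : ℝ) ^ (d + 1) := by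
        rw [pow_one]
        calc (M : ℝ) ≤ X ^ (ε₀ / 6) := hd
          _ ≤ K ^ (ε₀ / 6) := Real.rpow_le_rpow hX0.le hXK (by positivity)
          _ < _ := hdb
      have := (pow_lt_pow_iff_right₀ hM1).1 h1
      omega
    have hM3d : (M : ℝ) ^ (3 * d) ≤ K ^ (ε₀ / 2) := by
      calc (M : ℝ) ^ (3 * d) = ((M : ℝ) ^ d) ^ 3 := by rw [← pow_mul, mul_comm]
        _ ≤ (K ^ (ε₀ / 6)) ^ 3 := by gcongr
        _ = K ^ (ε₀ / 2) := by
          rw [← Real.rpow_natCast, ← Real.rpow_mul hK0.le]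
          congr 1
          push_cast
          ring
    have hLd : m₂ ≤ L * d := by
      have h1 : K ^ (ε₀ / 6) ≤ (M : ℝ) ^ (2 * d) := hdb.le.trans (pow_le_pow_right₀ hM1.le (by omega))
      have h2 : (M : ℝ) ^ (4 * m₂) ≤ (M : ℝ) ^ (4 * (L * d)) := by
        calc (M : ℝ) ^ (4 * m₂) ≤ K ^ (1 : ℝ) := by rw [Real.rpow_one]; exact hhigh
          _ ≤ K ^ (ε₀ / 6 * (2 * L : ℕ)) := by
            refine Real.rpow_le_rpow_of_exponent_le hK1 ?_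
            push_cast
            linarith
          _ = (K ^ (ε₀ / 6)) ^ (2 * L) := by rw [Real.rpow_mul hK0.le, Real.rpow_natCast]
          _ ≤ ((M : ℝ) ^ (2 * d)) ^ (2 * L) := by gcongr
          _ = (M : ℝ) ^ (4 * (L * d)) := by
            rw [← pow_mul]
            congr 1
            ring
      have := (pow_le_pow_iff_right₀ hM1).1 h2
      omega
    have hsq : ((M : ℝ) ^ m₂) ^ 2 ≤ X := by
      have h1 : (((M : ℝ) ^ m₂) ^ 2) ^ 2 ≤ X ^ 2 := by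
        calc (((M : ℝ) ^ m₂) ^ 2) ^ 2 = (M : ℝ) ^ (4 * m₂) := by ring
          _ ≤ K := hhigh
          _ ≤ X ^ 2 := hKX
      exact le_of_sq_le_sq h1 hX0.le
    obtain ⟨μ, hμ⟩ : ∃ μ : ℕ → ℕ, μ = fun j => min m₂ (m₀ + j * d) := ⟨_, rfl⟩
    have hμ0 : μ 0 = m₀ := by
      rw [hμ]
      show min m₂ (m₀ + 0 * d) = m₀
      rw [zero_mul, add_zero]
      exact min_eq_right hm
    have hμL : μ L = m₂ := by
      rw [hμ]
      exact min_eq_left (by omega)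
    have hμs : ∀ j, μ j ≤ μ (j + 1) := by
      intro j
      rw [hμ]
      show min m₂ (m₀ + j * d) ≤ min m₂ (m₀ + (j + 1) * d)
      refine min_le_min le_rfl ?_
      rw [add_mul]
      omega
    have hμd : ∀ j, μ (j + 1) ≤ μ j + d := by
      intro j
      rw [hμ]
      show min m₂ (m₀ + (j + 1) * d) ≤ min m₂ (m₀ + j * d) + d
      rw [add_mul, one_mul]
      omega
    have hμm : ∀ j, μ j ≤ m₂ := by
      intro j
      rw [hμ]
      exact min_le_left _ _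
    have hμg : ∀ j, m₀ ≤ μ j := by
      intro j
      rw [hμ]
      show m₀ ≤ min m₂ (m₀ + j * d)
      exact le_min hm (by omega)
    have hlev : ∀ j, (M : ℝ) ^ μ j ≤ (M : ℝ) ^ m₂ := fun j => pow_le_pow_right₀ hM1.le (hμm j)
    have hQ := hch μ X H κ κ σ S₀ (by rw [hμ0]; exact hm₁) hμs hX hH (by rw [hκ]; exact ha) hcone hσ hgd hκ1 ?_ ?_ ?_ ?_
    · rw [hμ0, hμL] at hQ
      have hr₀ : r₀ ∈ Finset.range (M ^ m₀) := by
        rw [Finset.mem_range]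
        have h1 := hk
        rw [hS₀, mem_arc] at h1
        have h2 := fl_lt hH0 (by norm_num) hS (N := M ^ m₀) (Nat.one_le_pow _ _ (by omega)) h1.1
        rw [h1.2] at h2
        exact h2
      have harc : arc 0 S₀ (M ^ m₀) r₀ = S₀ := by
        rw [hS₀, arc_arc (by omega) le_rfl, Nat.sub_self, pow_zero, Nat.div_one, if_pos rfl]
      have h1 : RI e B X S₀ ^ (1 / 6 : ℝ) ≤ QR78 e M B X S₀ m₀ := by
        refine le_trans ?_ (QR_ge78 e B X S₀ m₀)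
        have h2 := Finset.single_le_sum (f := fun r => RI e B X (arc 0 S₀ (M ^ m₀) r) ^ (1 / 6 : ℝ)) (fun _ _ => zero_le) hr₀
        simp only [harc] at h2
        exact h2
      refine h1.trans (hQ.trans ?_)
      refine mul_le_mul' (ENNReal.ofReal_le_ofReal ?_) le_rfl
      calc (C₁ * κ * κ) ^ L = C₁ ^ L * κ ^ (2 * L) := by rw [pow_mul]; ring
        _ = C₁ ^ L * X ^ ((2 * L : ℕ) * c) := by rw [hκpow]
        _ ≤ C * X ^ η := by
          gcongr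
          push_cast
          exact hcη
    · intro j _
      rw [← hK]
      calc C₁ * κ * (M : ℝ) ^ (3 * μ (j + 1)) ≤ K ^ (ε₀ / 2) * (M : ℝ) ^ (3 * m₂) := by
            refine mul_le_mul hCκ ?_ (by positivity) (by positivity)
            exact pow_le_pow_right₀ hM1.le (Nat.mul_le_mul_left 3 (hμm _))
        _ ≤ K ^ ε₀ * (M : ℝ) ^ (3 * m₂) := by
            refine mul_le_mul_of_nonneg_right ?_ (by positivity)
            rw [← hKh]
            exact le_mul_of_one_le_right (by positivity) hKh1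
        _ ≤ σ * (M : ℝ) ^ m₂ * (M : ℝ) ^ (3 * m₂) := by
            refine mul_le_mul_of_nonneg_right (hlow.trans ?_) (by positivity)
            exact mul_le_mul_of_nonneg_left (pow_le_pow_right₀ hM1.le hm) hσ.le
        _ = σ * (M : ℝ) ^ (4 * m₂) := by
            rw [mul_assoc, ← pow_add]
            congr 2
            ring
        _ ≤ σ * K := by gcongr
    · intro j _
      calc C₁ * κ * (M : ℝ) ^ (3 * μ (j + 1)) ≤ K ^ (ε₀ / 2) * (M : ℝ) ^ (3 * (μ j + d)) := by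
            refine mul_le_mul hCκ ?_ (by positivity) (by positivity)
            exact pow_le_pow_right₀ hM1.le (Nat.mul_le_mul_left 3 (hμd j))
        _ = K ^ (ε₀ / 2) * (M : ℝ) ^ (3 * d) * (M : ℝ) ^ (3 * μ j) := by
            rw [mul_assoc, ← pow_add]
            congr 2
            ring
        _ ≤ K ^ (ε₀ / 2) * K ^ (ε₀ / 2) * (M : ℝ) ^ (3 * μ j) := by gcongr
        _ = K ^ ε₀ * (M : ℝ) ^ (3 * μ j) := by rw [hKh]
        _ ≤ σ * (M : ℝ) ^ μ j * (M : ℝ) ^ (3 * μ j) := by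
            refine mul_le_mul_of_nonneg_right (hlow.trans ?_) (by positivity)
            exact mul_le_mul_of_nonneg_left (pow_le_pow_right₀ hM1.le (hμg j)) hσ.le
        _ = σ * (M : ℝ) ^ (4 * μ j) := by
            rw [mul_assoc, ← pow_add]
            congr 2
            ring
    · intro j _
      have h1 : (M : ℝ) ^ (2 * c * (μ (j + 1) : ℝ)) = (((M : ℝ) ^ μ (j + 1)) ^ 2) ^ c := by
        rw [← pow_mul, ← Real.rpow_natCast, ← Real.rpow_mul hM0.le]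
        congr 1
        push_cast
        ring
      rw [h1, hκ]
      refine Real.rpow_le_rpow (by positivity) (le_trans ?_ hsq) hc0.le
      exact pow_le_pow_left₀ (by positivity) (hlev _) 2
    · intro j _
      have h1 : (M : ℝ) ^ μ j * (M : ℝ) ^ μ (j + 1) ≤ X := by
        calc (M : ℝ) ^ μ j * (M : ℝ) ^ μ (j + 1) ≤ (M : ℝ) ^ m₂ * (M : ℝ) ^ m₂ :=
              mul_le_mul (hlev j) (hlev (j + 1)) (by positivity) (by positivity)
          _ = ((M : ℝ) ^ m₂) ^ 2 := by ring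
          _ ≤ X := hsq
      have h2 : X / σ ≤ X ^ 2 := by
        have h3 : 1 ≤ σ * X := by
          calc 1 ≤ K ^ ε₀ := Real.one_le_rpow hK1 hε₀.le
            _ ≤ σ * (M : ℝ) ^ m₀ := hlow
            _ ≤ σ * X := by
              refine mul_le_mul_of_nonneg_left ?_ hσ.le
              calc (M : ℝ) ^ m₀ ≤ (M : ℝ) ^ m₂ := pow_le_pow_right₀ hM1.le hm
                _ ≤ ((M : ℝ) ^ m₂) ^ 2 := by
                  rw [pow_two]
                  exact le_mul_of_one_le_right (by positivity) (one_le_pow₀ hM1.le)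
                _ ≤ X := hsq
        rw [div_le_iff₀ hσ]
        nlinarith
      have h3 : X ^ 40 ≤ κ ^ n := by
        rw [hκpow, ← Real.rpow_natCast X 40]
        refine Real.rpow_le_rpow_of_exponent_le hX ?_
        push_cast
        linarith
      have h4 : κ⁻¹ ^ n ≤ (X ^ 40)⁻¹ := by
        rw [inv_pow]
        exact inv_anti₀ (by positivity) h3
      calc E * (X / σ) * (S₀.card : ℝ) ^ 12 * κ⁻¹ ^ n * ((M : ℝ) ^ μ j * (M : ℝ) ^ μ (j + 1)) ^ 6 ≤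
            E * X ^ 2 * (196 * X ^ 2) ^ 12 * (X ^ 40)⁻¹ * X ^ 6 := by gcongr
        _ = (E * 196 ^ 12) * (X ^ 8)⁻¹ := by
          field_simp
        _ ≤ X * (X ^ 8)⁻¹ := by gcongr
        _ = (X ^ 7)⁻¹ := by
          field_simp
        _ ≤ 1 := inv_le_one_of_one_le₀ (one_le_pow₀ hX)

end Pool.Agent.Helper60.RT
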