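import Pool.Agent.Helper78.RT.ClassI0
import Pool.Agent.Helper58.RT.B2
import Pool.Agent.Helper70.RT.K12
import Pool.Agent.Helper77.RT.Num

/-!
# RT-E1a: type I arcs
-/

open MeasureTheory Real Set Filter Topology

set_option autoImplicit false

namespace Pool.Agent.Helper60.RT

open Pool.Agent.Helper22.AE
open Pool.Agent.Helper92.GC (dt tp Tq uu tt arc dd sqa m6)
open Pool.Agent.Helper60.LT (Fr Tf xf yf df vf fr ac co Cut BB)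
open Pool.Agent.Helper60.QL (R3 nm pA xA sA TA Cone)

/-- E1a from Q3 and C4 -/
theorem class_I_78 (hQ3 : StQ378) (hC4 : StC478)
    {e : Fr} (he : 0 < df e) {η ε₀ B : ℝ} {M : ℕ} (hη : 0 < η) (hε₀ : 0 < ε₀) (hB : 1 ≤ B) (hM : 2 ≤ M) : ∃ C : ℝ, 1 ≤ C ∧
    ∀ (X σ A : ℝ) (N m₀ m₂ r₀ : ℕ) (P : Finset ℕ), Par e M ε₀ X σ N m₀ m₂ r₀ → 1 ≤ A → 24 * A ^ 2 ≤ (M : ℝ) ^ m₂ → P ⊆ Finset.range (M ^ m₂) →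
      (∀ r ∈ P, |ctr (M ^ m₂) r - ctr (M ^ m₀) r₀| ≤ 12 / (M ^ m₀ : ℕ) ∧ ∃ n : ℤ × ℤ, Pr n ∧ A ≤ n.1 ∧ (n.1 : ℝ) ≤ 2 * A ∧ 24 * (n.1 : ℝ) ^ 2 ≤ (M : ℝ) ^ m₂ ∧
        |sp n - ctr (M ^ m₂) r| ≤ 24 / (M ^ m₂ : ℕ)) →
        SS e B X (arc 0 (cn N) (M ^ m₀) r₀) (M ^ m₂) P ≤ ENNReal.ofReal (C * X ^ η * FR X N) :=
  class_I_of hQ3 hC4 count_I (fun hb => num_bds hb) (fun hN => cn_cone hN) cn_cut he hη hε₀ hB hM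

end Pool.Agent.Helper60.RT
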