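import Pool.Agent.Helper78.RT.ClassIof

/-!
# RT-E1a: type I arcs, from the blocks B, Q3, C4, K1, E1n
-/

open MeasureTheory Real Set Filter Topology

set_option autoImplicit false

namespace Pool.Agent.Helper60.RT

open Pool.Agent.Helper22.AE
open Pool.Agent.Helper92.GC (dt tp Tq uu tt arc dd sqa m6)
open Pool.Agent.Helper92.DT (m12 IsMul12)
open Pool.Agent.Helper60.LT (Fr Tf xf yf df vf fr ac co Cut BB)
open Pool.Agent.Helper60.QL (R3 nm pA xA sA TA Cone)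
open Pool.Agent.Helper78.QL (card_le mem_arc)

/-- few arcs: a uniform bound -/
private theorem caseOne78 {e : Fr} {η B : ℝ} {M : ℕ} (hB1 : StCone78) {Cq Cn : ℝ} (hM : 2 ≤ M) (hη : 0 < η) (hCq : 1 ≤ Cq) (hCn : 1 ≤ Cn)
    (hq : ∀ (X : ℝ) (N : ℕ) (W D τ : ℝ) (S : Finset (ℤ × ℤ)), 1 ≤ X → 1 ≤ N →
      (N : ℝ) ≤ X → 0 ≤ W → W ≤ 2 → 1 ≤ D → S ⊆ cn N → (∀ k ∈ S, |tt 0 k - τ| ≤ W) → (∀ k ∈ S, D * (Int.gcd k.1 k.2 : ℝ) ≤ k.1) →
      RI e B X S ≤ ENNReal.ofReal (Cq * X ^ (1 + η) * (N ^ 2 * W + N / D) ^ 7 * (N ^ 2 * W + (N / D) ^ 2) ^ 2 * (1 + N ^ 3 / X)))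
    (hnum : ∀ (X N w Q : ℝ), 1 ≤ X → 1 ≤ N → N ≤ X ^ (4 / 9 + 1 / 1000 : ℝ) → 0 < Q → 1 ≤ (1296 * (M : ℝ) ^ 4) * (w ^ 4 * (X * N)) →
      w ^ 4 * (X * N) ≤ 1296 * (M : ℝ) ^ 4 → 0 < w → w ≤ 1296 * (M : ℝ) ^ 4 →
      X * BB N (X * N) ≤ Cn * FR X N ∧
      X * ((N ^ 2 * w + N) ^ 7 * (N ^ 2 * w + N ^ 2) ^ 2 * (1 + N ^ 3 / X)) ≤ Cn * FR X N ∧
      X * (w ^ 6 * N ^ 18 * (1 + N ^ 3 / X)) ≤ Cn * FR X N ∧
      X * min (w * Q ^ 2 * BB N (X * N)) (N ^ 18 * (1 + N ^ 3 / X) / (Q ^ 12 * w ^ 3)) ≤ Cn * FR X N ∧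
      (X ^ (1 / 10 : ℝ) ≤ N → (X * N) ^ (3 / 2 : ℝ) ≤ Cn * FR X N) ∧ 1 ≤ Cn * FR X N)
    {X : ℝ} {N m₂ : ℕ} {G : Finset (ℤ × ℤ)} {P : Finset ℕ} {c : ℝ} (hX : 1 ≤ X) (hN : 1 ≤ N) (hNX : (N : ℝ) ≤ X)
    (hhi : (N : ℝ) ≤ X ^ (4 / 9 + 1 / 1000 : ℝ)) (hG : G ⊆ cn N) (h3 : 3 ≤ (M : ℝ) ^ m₂) (h4 : ((M : ℝ) ^ m₂) ^ 4 ≤ X * N)
    (h5 : X * N < ((M : ℝ) ^ m₂) ^ 4 * (M : ℝ) ^ 4) (hc : (P.card : ℝ) ≤ c) :
    SS e B X G (M ^ m₂) P ≤ ENNReal.ofReal (c ^ 6 * ((Cq * Cn + Cn) * X ^ η * FR X N)) := by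
  have hX0 : 0 < X := by linarith
  have hN1 : (1 : ℝ) ≤ N := by exact_mod_cast hN
  have hM0 : (2 : ℝ) ≤ M := by exact_mod_cast hM
  obtain ⟨y, hy⟩ : ∃ y, y = (M : ℝ) ^ m₂ := ⟨_, rfl⟩
  rw [← hy] at h3 h4 h5
  have hy0 : 0 < y := by linarith
  have hyc : (((M ^ m₂ : ℕ) : ℕ) : ℝ) = y := by
    rw [hy]
    push_cast
    rfl
  obtain ⟨w, hw⟩ : ∃ w, w = 6 / y := ⟨_, rfl⟩
  have hw0 : 0 < w := by rw [hw]; positivity
  have hw2 : w ≤ 2 := by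
    rw [hw, div_le_iff₀ hy0]
    linarith
  have hw4 : w ^ 4 * (X * N) = 1296 * (X * N) / y ^ 4 := by
    rw [hw]
    field_simp
    ring
  have hM4 : (1 : ℝ) ≤ (M : ℝ) ^ 4 := one_le_pow₀ (by linarith)
  have hwa : 1296 ≤ w ^ 4 * (X * N) := by
    rw [hw4, le_div_iff₀ (by positivity)]
    exact mul_le_mul_of_nonneg_left h4 (by norm_num)
  have hwb : w ^ 4 * (X * N) ≤ 1296 * (M : ℝ) ^ 4 := by
    rw [hw4, div_le_iff₀ (by positivity)]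
    nlinarith
  have hnb : 1 ≤ (1296 * (M : ℝ) ^ 4) * (w ^ 4 * (X * N)) := by
    have : 1 ≤ 1296 * (M : ℝ) ^ 4 := by linarith
    exact one_le_mul_of_one_le_of_one_le this (by linarith)
  obtain ⟨-, n2, -, -, -, n6⟩ := hnum X N w 1 hX hN1 hhi one_pos hnb hwb hw0 (by linarith)
  have hXη : 1 ≤ X ^ η := Real.one_le_rpow hX hη.le
  have hFR0 : 0 ≤ FR X N := by
    by_contra hcon
    push Not at hcon
    have : Cn * FR X N < 0 := mul_neg_of_pos_of_neg (by linarith) hcon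
    linarith
  obtain ⟨c', hc'⟩ : ∃ c', c' = (Cq * Cn + Cn) * X ^ η * FR X N := ⟨_, rfl⟩
  have hc'0 : 0 ≤ c' := by rw [hc']; positivity
  have hone : ∀ r ∈ P, RI e B X (arc 0 G (M ^ m₂) r) + 1 ≤ ENNReal.ofReal c' := by
    intro r _
    have hsub : arc 0 G (M ^ m₂) r ⊆ cn N := fun k hk => hG (mem_arc.1 hk).1
    have h6 : RI e B X (arc 0 G (M ^ m₂) r) ≤ ENNReal.ofReal (Cq * Cn * X ^ η * FR X N) := by
      refine (hq X N w 1 (ctr (M ^ m₂) r) _ hX hN hNX hw0.le hw2 le_rfl hsub ?_ ?_).trans (ENNReal.ofReal_le_ofReal ?_)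
      · intro k hk
        have := arc_near (Nat.one_le_pow _ _ (by omega)) hG hk
        rw [hyc] at this
        rw [hw]
        exact this
      · intro k hk
        have h7 := ((hB1 hN).2 k (hsub hk)).1
        have h8 : (0 : ℤ) < k.1 := by
          have : (0 : ℝ) < k.1 := by linarith
          exact_mod_cast this
        have h9 : (Int.gcd k.1 k.2 : ℤ) ≤ k.1 := Int.le_of_dvd h8 (Int.gcd_dvd_left _ _)
        rw [one_mul]
        exact_mod_cast h9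
      · rw [div_one]
        calc Cq * X ^ (1 + η) * (N ^ 2 * w + N) ^ 7 * (N ^ 2 * w + (N : ℝ) ^ 2) ^ 2 * (1 + (N : ℝ) ^ 3 / X) =
              Cq * X ^ η * (X * ((N ^ 2 * w + N) ^ 7 * (N ^ 2 * w + (N : ℝ) ^ 2) ^ 2 * (1 + (N : ℝ) ^ 3 / X))) := by
              rw [Real.rpow_add hX0, Real.rpow_one]
              ring
          _ ≤ Cq * X ^ η * (Cn * FR X N) := mul_le_mul_of_nonneg_left n2 (by positivity)
          _ = Cq * Cn * X ^ η * FR X N := by ring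
    have h7 : (1 : ENNReal) ≤ ENNReal.ofReal (Cn * X ^ η * FR X N) := by
      rw [ENNReal.one_le_ofReal]
      calc (1 : ℝ) ≤ Cn * FR X N := n6
        _ ≤ (Cn * FR X N) * X ^ η := le_mul_of_one_le_right (by positivity) hXη
        _ = Cn * X ^ η * FR X N := by ring
    calc RI e B X (arc 0 G (M ^ m₂) r) + 1 ≤ ENNReal.ofReal (Cq * Cn * X ^ η * FR X N) + ENNReal.ofReal (Cn * X ^ η * FR X N) := add_le_add h6 h7
      _ = ENNReal.ofReal c' := by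
        rw [← ENNReal.ofReal_add (by positivity) (by positivity), hc']
        congr 1
        ring
  have hp : (0 : ℝ) ≤ (P.card : ℝ) := Nat.cast_nonneg _
  have hmain : SS e B X G (M ^ m₂) P ≤ ENNReal.ofReal ((P.card : ℝ) ^ 6 * c') := SS_le78 hc'0 hone
  refine hmain.trans (ENNReal.ofReal_le_ofReal ?_)
  rw [← hc']
  gcongr

/-- many arcs: the moments of all together -/
private theorem caseTwo78 {e : Fr} {η ε₀ B β : ℝ} {M : ℕ} (hB1 : StCone78) (hB2 : StCut78) {Cr Cn : ℝ} (hM : 2 ≤ M) (hη : 0 < η) (hε₀ : 0 < ε₀) (hCr : 1 ≤ Cr)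
    (hCn : 1 ≤ Cn) (hβ1 : 24 ^ 12 ≤ β) (hβ2 : 24 ^ 12 * (M : ℝ) ^ 4 ≤ β) (hβ3 : Ge78 e ≤ β)
    (hr : ∀ (ι : Type) (P : Finset ι) (I : ι → Finset (ℤ × ℤ)) (n : ι → ℤ × ℤ) (X U σ : ℝ) (N : ℕ), 1 ≤ X → 1 ≤ N → (N : ℝ) ≤ X → 1 ≤ U → 0 < σ → σ ≤ β →
      (∀ p ∈ P, Pr (n p) ∧ U ≤ β * (n p).1 ∧ ((n p).1 : ℝ) ≤ β * U ∧ |sp (n p)| ≤ β ∧ σ ≤ |l1 e (sp (n p)) * l2 e (sp (n p))|) →
      (∀ p ∈ P, Cut β (I p) ∧ I p ⊆ cn N ∧ ∀ k ∈ I p, ((n p).1 : ℝ) ^ 2 * |tt 0 k - sp (n p)| ≤ 2 ∧ |tt 0 k - sp (n p)| ^ 4 * (X * N) ≤ β) →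
      (∀ v : ℤ × ℤ, ((open Classical in P.filter (fun p => n p = v)).card : ℝ) ≤ β) →
        ∑ p ∈ P, RI e B X (I p) ≤ ENNReal.ofReal (Cr * (X * N) ^ (η / 2) * (X / σ) * U ^ (-(10 : ℝ)) * BB N (X * N)))
    {X σ A : ℝ} {N m₀ m₂ r₀ : ℕ} {P : Finset ℕ} {c : ℝ} (hpar : Par e M ε₀ X σ N m₀ m₂ r₀) (hA : 1 ≤ A) (hc0 : 0 ≤ c)
    (hK : 120 * Ge78 e ≤ (X * N) ^ ε₀) (h3 : 3 ≤ (M : ℝ) ^ m₂) (hc : (P.card : ℝ) ≤ c * A ^ 2 * σ) (hcr : P ⊆ Finset.range (M ^ m₂))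
    (hn1 : X * BB N (X * N) ≤ Cn * FR X N) (hn5 : (X * N) ^ (3 / 2 : ℝ) ≤ Cn * FR X N)
    (hP : ∀ r ∈ P, ∃ n : ℤ × ℤ, Pr n ∧ A ≤ n.1 ∧ (n.1 : ℝ) ≤ 2 * A ∧ 24 * (n.1 : ℝ) ^ 2 ≤ (M : ℝ) ^ m₂ ∧ |sp n - ctr (M ^ m₂) r| ≤ 24 / (M ^ m₂ : ℕ)) :
    SS e B X (arc 0 (cn N) (M ^ m₀) r₀) (M ^ m₂) P ≤ ENNReal.ofReal ((2 * c ^ 5 * Cr * Ge78 e ^ 4 * Cn + Cn) * X ^ η * FR X N) := by
  classical
  obtain ⟨hNX, hK1, hKX, hXK, hy1, -, hy4, hy4', -, hσy⟩ := par_facts78 hM hε₀ hpar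
  have hX := hpar.X1
  have hX0 : 0 < X := by linarith
  have hN := hpar.N1
  have hN1 : (1 : ℝ) ≤ N := by exact_mod_cast hN
  have hσ := hpar.σ0
  have hM0 : (2 : ℝ) ≤ M := by exact_mod_cast hM
  have hG1 := Ge78_one e
  obtain ⟨G, hG⟩ : ∃ G, G = arc 0 (cn N) (M ^ m₀) r₀ := ⟨_, rfl⟩
  have hgd := hpar.gd
  rw [← hG] at hgd ⊢
  have hGcn : G ⊆ cn N := by rw [hG]; exact fun k hk => (mem_arc.1 hk).1
  obtain ⟨y, hy⟩ : ∃ y, y = (M : ℝ) ^ m₂ := ⟨_, rfl⟩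
  rw [← hy] at h3 hy1 hy4 hy4' hσy
  have hy0 : 0 < y := by linarith
  have hyc : (((M ^ m₂ : ℕ) : ℕ) : ℝ) = y := by
    rw [hy]
    push_cast
    rfl
  obtain ⟨K, hKd⟩ : ∃ K : ℝ, K = X * N := ⟨_, rfl⟩
  rw [← hKd] at hK1 hKX hXK hy4 hy4' hσy hK hn1 hn5
  have hK0 : 0 < K := by linarith
  have hFR0 : 0 ≤ FR X N := by
    by_contra hcon
    push Not at hcon
    have h1 : Cn * FR X N < 0 := mul_neg_of_pos_of_neg (by linarith) hcon
    have h2 : 0 < K ^ (3 / 2 : ℝ) := by positivity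
    linarith
  have hXη : 1 ≤ X ^ η := Real.one_le_rpow hX hη.le
  choose! n hn using hP
  -- the nonempty arcs
  obtain ⟨P', hP'⟩ : ∃ P', P' = P.filter (fun r => (arc 0 G (M ^ m₂) r).Nonempty) := ⟨_, rfl⟩
  have hsum : ∑ r ∈ P, RI e B X (arc 0 G (M ^ m₂) r) = ∑ r ∈ P', RI e B X (arc 0 G (M ^ m₂) r) := by
    rw [hP', Finset.sum_filter]
    refine Finset.sum_congr rfl fun r _ => ?_
    split_ifs with h
    · rfl
    · rw [Finset.not_nonempty_iff_eq_empty.1 h, RI_emptyE78]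
  have hmem : ∀ r ∈ P', r ∈ P ∧ (arc 0 G (M ^ m₂) r).Nonempty := by
    intro r hr'
    rw [hP', Finset.mem_filter] at hr'
    exact hr'
  -- the distance of the slopes
  have hdist : ∀ r ∈ P, ∀ k ∈ arc 0 G (M ^ m₂) r, |tt 0 k - sp (n r)| ≤ 30 / y := by
    intro r hr' k hk
    have h1 := arc_near (Nat.one_le_pow _ _ (by omega)) hGcn hk
    have h2 := (hn r hr').2.2.2.2
    rw [hyc] at h1 h2
    calc |tt 0 k - sp (n r)| = |(tt 0 k - ctr (M ^ m₂) r) - (sp (n r) - ctr (M ^ m₂) r)| := by ring_nf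
      _ ≤ |tt 0 k - ctr (M ^ m₂) r| + |sp (n r) - ctr (M ^ m₂) r| := abs_sub _ _
      _ ≤ 6 / y + 24 / y := add_le_add h1 h2
      _ = 30 / y := by ring
  have h30 : 30 / y ≤ 10 := by
    rw [div_le_iff₀ hy0]
    linarith
  have htt : ∀ k ∈ G, |tt 0 k| ≤ 1 := fun k hk => ((hB1 hN).2 k (hGcn hk)).2.2
  have key : (P.card : ENNReal) ^ 5 * ∑ r ∈ P, RI e B X (arc 0 G (M ^ m₂) r) ≤ ENNReal.ofReal (2 * c ^ 5 * Cr * Ge78 e ^ 4 * Cn * X ^ η * FR X N) := by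
    rw [hsum]
    rcases P'.eq_empty_or_nonempty with hemp | ⟨r₁, hr₁⟩
    · rw [hemp, Finset.sum_empty, mul_zero]
      exact zero_le
    obtain ⟨hr₁P, k₁, hk₁⟩ := hmem r₁ hr₁
    have hk₁G : k₁ ∈ G := (mem_arc.1 hk₁).1
    have hσG : σ ≤ Ge78 e := (hgd k₁ hk₁G).1.trans (ll_le78 e ((htt k₁ hk₁G).trans (by norm_num)))
    have h1 := hr ℕ P' (fun r => arc 0 G (M ^ m₂) r) n X A (σ / 2) N hX hN hNX hA (by positivity) (by linarith) ?_ ?_ ?_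
    · refine (mul_le_mul' (le_refl _) h1).trans ?_
      have hp : (0 : ℝ) ≤ (P.card : ℝ) := Nat.cast_nonneg _
      rw [← ENNReal.ofReal_natCast, ← ENNReal.ofReal_pow hp, ← ENNReal.ofReal_mul (by positivity)]
      refine ENNReal.ofReal_le_ofReal ?_
      have hA10 : A ^ (-(10 : ℝ)) = (A ^ 10)⁻¹ := by
        rw [Real.rpow_neg (by linarith)]
        congr 1
        exact_mod_cast Real.rpow_natCast A 10
      have hBB0 : 0 ≤ BB (N : ℝ) K := by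
        unfold BB
        positivity
      rw [← hKd, hA10]
      have hKη : K ^ (η / 2) ≤ X ^ η := by
        calc K ^ (η / 2) ≤ (X ^ 2) ^ (η / 2) := Real.rpow_le_rpow hK0.le hKX (by positivity)
          _ = X ^ η := by
            rw [← Real.rpow_natCast, ← Real.rpow_mul hX0.le]
            congr 1
            push_cast
            ring
      have hA0 : 0 < A := by linarith
      calc (P.card : ℝ) ^ 5 * (Cr * K ^ (η / 2) * (X / (σ / 2)) * (A ^ 10)⁻¹ * BB N K) ≤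
            (c * A ^ 2 * σ) ^ 5 * (Cr * K ^ (η / 2) * (X / (σ / 2)) * (A ^ 10)⁻¹ * BB N K) := by
            gcongr
        _ = 2 * c ^ 5 * Cr * σ ^ 4 * K ^ (η / 2) * (X * BB N K) := by
            field_simp
        _ ≤ 2 * c ^ 5 * Cr * Ge78 e ^ 4 * X ^ η * (Cn * FR X N) := by
            gcongr
        _ = 2 * c ^ 5 * Cr * Ge78 e ^ 4 * Cn * X ^ η * FR X N := by ring
    · intro r hr'
      obtain ⟨hrP, k, hk⟩ := hmem r hr'
      obtain ⟨p1, p2, p3, -, -⟩ := hn r hrP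
      have hkG : k ∈ G := (mem_arc.1 hk).1
      have hd := hdist r hrP k hk
      have ht1 := htt k hkG
      have hs11 : |sp (n r)| ≤ 11 := by
        have h2 : |sp (n r)| ≤ |tt 0 k| + |tt 0 k - sp (n r)| := by
          calc |sp (n r)| = |tt 0 k - (tt 0 k - sp (n r))| := by ring_nf
            _ ≤ |tt 0 k| + |tt 0 k - sp (n r)| := abs_sub _ _
        linarith
      have hn0 : (0 : ℝ) < (n r).1 := by linarith
      have hβ' : (2 : ℝ) ≤ β := le_trans (by norm_num) hβ1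
      refine ⟨p1, ?_, ?_, ?_, ?_⟩
      · calc A ≤ 1 * ((n r).1 : ℝ) := by rw [one_mul]; exact p2
          _ ≤ β * (n r).1 := mul_le_mul_of_nonneg_right (by linarith) hn0.le
      · exact p3.trans (mul_le_mul_of_nonneg_right hβ' (by linarith))
      · exact hs11.trans (le_trans (by norm_num) hβ1)
      · have h2 := ll_lip78 e (ht1.trans (by norm_num)) hs11
        have h3' := (hgd k hkG).1
        have h4 : |l1 e (tt 0 k) * l2 e (tt 0 k)| ≤ |l1 e (sp (n r)) * l2 e (sp (n r))| + |l1 e (tt 0 k) * l2 e (tt 0 k) - l1 e (sp (n r)) * l2 e (sp (n r))| := by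
          have h5 := abs_add_le (l1 e (sp (n r)) * l2 e (sp (n r))) (l1 e (tt 0 k) * l2 e (tt 0 k) - l1 e (sp (n r)) * l2 e (sp (n r)))
          rw [add_sub_cancel] at h5
          exact h5
        have h5 : 2 * Ge78 e * |tt 0 k - sp (n r)| ≤ σ / 2 := by
          calc 2 * Ge78 e * |tt 0 k - sp (n r)| ≤ 2 * Ge78 e * (30 / y) := mul_le_mul_of_nonneg_left hd (by linarith)
            _ = 120 * Ge78 e / y / 2 := by ring
            _ ≤ σ / 2 := by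
              refine div_le_div_of_nonneg_right ?_ (by norm_num)
              rw [div_le_iff₀ hy0]
              exact hK.trans hσy
        linarith
    · intro r hr'
      obtain ⟨hrP, -⟩ := hmem r hr'
      obtain ⟨p1, p2, p3, p4, -⟩ := hn r hrP
      refine ⟨?_, fun k hk => hGcn (mem_arc.1 hk).1, ?_⟩
      · rw [hG]
        exact Cut.mono78 (((hB2 N).2 _ _ (Nat.one_le_pow _ _ (by omega))).2 _ _ (Nat.one_le_pow _ _ (by omega))).1 hβ1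
      · intro k hk
        have hd := hdist r hrP k hk
        rw [← hy] at p4
        constructor
        · calc ((n r).1 : ℝ) ^ 2 * |tt 0 k - sp (n r)| ≤ (y / 24) * (30 / y) := by
                refine mul_le_mul ?_ hd (abs_nonneg _) (by positivity)
                linarith
            _ = 5 / 4 := by
                field_simp
                norm_num
            _ ≤ 2 := by norm_num
        · rw [← hKd]
          calc |tt 0 k - sp (n r)| ^ 4 * K ≤ (30 / y) ^ 4 * (y ^ 4 * (M : ℝ) ^ 4) := by gcongr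
            _ = 30 ^ 4 * (M : ℝ) ^ 4 := by field_simp
            _ ≤ 24 ^ 12 * (M : ℝ) ^ 4 := mul_le_mul_of_nonneg_right (by norm_num) (by positivity)
            _ ≤ β := hβ2
    · intro v
      have h2 : (P'.filter (fun p => n p = v)).card ≤ 5 := by
        refine five78 (N := M ^ m₂) (Nat.one_le_pow _ _ (by omega)) (s := sp v) fun r hr' => ?_
        rw [Finset.mem_filter] at hr'
        have h3' := (hn r (hmem r hr'.1).1).2.2.2.2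
        rw [hr'.2] at h3'
        exact h3'
      have h3' : ((P'.filter (fun p => n p = v)).card : ℝ) ≤ 5 := by exact_mod_cast h2
      refine le_trans ?_ (h3'.trans (le_trans (by norm_num) hβ1))
      refine le_of_eq ?_
      congr!
  have hp : (0 : ℝ) ≤ (P.card : ℝ) := Nat.cast_nonneg _
  have hcy : (P.card : ℝ) ≤ y := by
    have h1 := Finset.card_le_card hcr
    rw [Finset.card_range] at h1
    have h2 : (P.card : ℝ) ≤ ((M ^ m₂ : ℕ) : ℝ) := by exact_mod_cast h1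
    rw [hyc] at h2
    exact h2
  have h6 : (P.card : ENNReal) ^ 5 * (P.card : ENNReal) ≤ ENNReal.ofReal (Cn * X ^ η * FR X N) := by
    rw [← pow_succ, ← ENNReal.ofReal_natCast, ← ENNReal.ofReal_pow hp]
    refine ENNReal.ofReal_le_ofReal ?_
    calc (P.card : ℝ) ^ (5 + 1) ≤ y ^ (5 + 1) := by gcongr
      _ = (y ^ 4) ^ (3 / 2 : ℝ) := by
        rw [← Real.rpow_natCast y 4, ← Real.rpow_mul hy0.le, ← Real.rpow_natCast]
        norm_num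
      _ ≤ K ^ (3 / 2 : ℝ) := Real.rpow_le_rpow (by positivity) hy4 (by norm_num)
      _ ≤ Cn * FR X N := hn5
      _ ≤ (Cn * FR X N) * X ^ η := le_mul_of_one_le_right (by positivity) hXη
      _ = Cn * X ^ η * FR X N := by ring
  unfold SS
  refine (hoelder78 P _).trans ?_
  rw [Finset.sum_add_distrib, mul_add, Finset.sum_const, nsmul_eq_mul, mul_one]
  refine (add_le_add key h6).trans (le_of_eq ?_)
  rw [← ENNReal.ofReal_add (by positivity) (by positivity)]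
  congr 1
  ring

/-- E1a from the other blocks -/
theorem class_I_of (hQ3 : StQ378) (hC4 : StC478) (hK1 : StK178) (hNum : StNum78) (hB1 : StCone78) (hB2 : StCut78)
    {e : Fr} (he : 0 < df e) {η ε₀ B : ℝ} {M : ℕ} (hη : 0 < η) (hε₀ : 0 < ε₀) (hB : 1 ≤ B) (hM : 2 ≤ M) : ∃ C : ℝ, 1 ≤ C ∧
    ∀ (X σ A : ℝ) (N m₀ m₂ r₀ : ℕ) (P : Finset ℕ), Par e M ε₀ X σ N m₀ m₂ r₀ → 1 ≤ A → 24 * A ^ 2 ≤ (M : ℝ) ^ m₂ → P ⊆ Finset.range (M ^ m₂) →
      (∀ r ∈ P, |ctr (M ^ m₂) r - ctr (M ^ m₀) r₀| ≤ 12 / (M ^ m₀ : ℕ) ∧ ∃ n : ℤ × ℤ, Pr n ∧ A ≤ n.1 ∧ (n.1 : ℝ) ≤ 2 * A ∧ 24 * (n.1 : ℝ) ^ 2 ≤ (M : ℝ) ^ m₂ ∧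
        |sp n - ctr (M ^ m₂) r| ≤ 24 / (M ^ m₂ : ℕ)) →
        SS e B X (arc 0 (cn N) (M ^ m₀) r₀) (M ^ m₂) P ≤ ENNReal.ofReal (C * X ^ η * FR X N) := by
  classical
  have hM0 : (2 : ℝ) ≤ M := by exact_mod_cast hM
  have hG1 := Ge78_one e
  have hB0 : 0 < B := by linarith
  obtain ⟨Cq, hCq, hq⟩ := hQ3 he hη hB
  have hM4 : (1 : ℝ) ≤ (M : ℝ) ^ 4 := one_le_pow₀ (by linarith)
  obtain ⟨β, hβ⟩ : ∃ β, β = 24 ^ 12 * (M : ℝ) ^ 4 * Ge78 e := ⟨_, rfl⟩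
  have hβ2 : 24 ^ 12 * (M : ℝ) ^ 4 ≤ β := by
    rw [hβ]
    exact le_mul_of_one_le_right (by positivity) hG1
  have hβ1 : 24 ^ 12 ≤ β := le_trans (le_mul_of_one_le_right (by positivity) hM4) hβ2
  have hβ3 : Ge78 e ≤ β := by
    rw [hβ]
    refine le_mul_of_one_le_left (by linarith) ?_
    exact one_le_mul_of_one_le_of_one_le (by norm_num) hM4
  obtain ⟨Cr, hCr, hr⟩ := hC4 he (ε := η / 2) (by positivity) hB (β := β) (le_trans (by norm_num) hβ1)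
  obtain ⟨c₁, hc₁, hcnt⟩ := hK1
  obtain ⟨Cn, hCn, hnum⟩ := hNum (b := 1296 * (M : ℝ) ^ 4) (by linarith)
  obtain ⟨K₀, hK₀⟩ := eventually_atTop.1 (((tendsto_rpow_atTop hε₀).eventually_ge_atTop (120 * Ge78 e)).and
    (eventually_ge_atTop ((3 * (M : ℝ)) ^ 4)))
  obtain ⟨K₁, hK₁⟩ : ∃ K₁, K₁ = max K₀ 1 := ⟨_, rfl⟩
  have hK₁1 : 1 ≤ K₁ := by rw [hK₁]; exact le_max_right _ _
  have hK₁0 : K₀ ≤ K₁ := by rw [hK₁]; exact le_max_left _ _
  obtain ⟨b₀, hb₀⟩ : ∃ b₀, b₀ = B * (B * K₁) * (196 * K₁ ^ 2) ^ 11 := ⟨_, rfl⟩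
  have hb₀0 : 0 ≤ b₀ := by rw [hb₀]; positivity
  obtain ⟨D₁, hD₁⟩ : ∃ D₁, D₁ = K₁ ^ 6 * (b₀ + 1) * Cn := ⟨_, rfl⟩
  obtain ⟨D₂, hD₂⟩ : ∃ D₂, D₂ = (2 * c₁) ^ 6 * (Cq * Cn + Cn) := ⟨_, rfl⟩
  obtain ⟨D₃, hD₃⟩ : ∃ D₃, D₃ = 2 * (2 * c₁) ^ 5 * Cr * Ge78 e ^ 4 * Cn + Cn := ⟨_, rfl⟩
  have hD₁0 : 0 ≤ D₁ := by rw [hD₁]; positivity
  have hD₂0 : 0 ≤ D₂ := by rw [hD₂]; positivity
  have hD₃1 : 1 ≤ D₃ := by
    rw [hD₃]
    have : 0 ≤ 2 * (2 * c₁) ^ 5 * Cr * Ge78 e ^ 4 * Cn := by positivity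
    linarith
  refine ⟨D₁ + D₂ + D₃, by linarith, ?_⟩
  intro X σ A N m₀ m₂ r₀ P hpar hA _ hPr hP
  obtain ⟨hNX, hK1', hKX, hXK, hy1, hm, hy4, hy4', hσ0, -⟩ := par_facts78 hM hε₀ hpar
  have hX := hpar.X1
  have hX0 : 0 < X := by linarith
  have hN := hpar.N1
  have hN1 : (1 : ℝ) ≤ N := by exact_mod_cast hN
  have hσ := hpar.σ0
  obtain ⟨y, hy⟩ : ∃ y, y = (M : ℝ) ^ m₂ := ⟨_, rfl⟩
  have hyc : (((M ^ m₂ : ℕ) : ℕ) : ℝ) = y := by
    rw [hy]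
    push_cast
    rfl
  have hy1' : 1 ≤ y := by rw [hy]; exact hy1
  have hy4a : y ^ 4 ≤ X * N := by rw [hy]; exact hy4
  have hy4b : X * N < y ^ 4 * (M : ℝ) ^ 4 := by rw [hy]; exact hy4'
  have hy0 : 0 < y := by linarith
  have hXη : 1 ≤ X ^ η := Real.one_le_rpow hX hη.le
  -- the numerical inequalities
  obtain ⟨n1, -, -, -, n5, n6⟩ := hnum X N (6 / y) 1 hX hN1 hpar.hi one_pos
    (by
      have e1 : (6 / y) ^ 4 * (X * N) = 1296 * (X * N) / y ^ 4 := by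
        field_simp
        ring
      rw [e1]
      have h1 : 1 ≤ 1296 * (X * N) / y ^ 4 := by
        rw [le_div_iff₀ (by positivity)]
        linarith
      exact one_le_mul_of_one_le_of_one_le (by linarith) h1)
    (by
      have e1 : (6 / y) ^ 4 * (X * N) = 1296 * (X * N) / y ^ 4 := by
        field_simp
        ring
      rw [e1, div_le_iff₀ (by positivity)]
      linarith)
    (by positivity)
    (by
      have h1 : 6 / y ≤ 6 := div_le_self (by norm_num) hy1'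
      linarith)
  have hn5 := n5 hpar.lo
  have hFR0 : 0 ≤ FR X N := by
    by_contra hcon
    push Not at hcon
    have : Cn * FR X N < 0 := mul_neg_of_pos_of_neg (by linarith) hcon
    linarith
  have hF0 : 0 ≤ X ^ η * FR X N := by positivity
  have hcardy : (P.card : ℝ) ≤ y := by
    have h1 := Finset.card_le_card hPr
    rw [Finset.card_range] at h1
    have h2 : (P.card : ℝ) ≤ ((M ^ m₂ : ℕ) : ℝ) := by exact_mod_cast h1
    rw [hyc] at h2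
    exact h2
  have hGcn : arc 0 (cn N) (M ^ m₀) r₀ ⊆ cn N := fun k hk => (mem_arc.1 hk).1
  rcases lt_or_ge (X * N) K₁ with hlt | hge
  · -- bounded parameters
    have h1 : ∀ r ∈ P, RI e B X (arc 0 (arc 0 (cn N) (M ^ m₀) r₀) (M ^ m₂) r) + 1 ≤ ENNReal.ofReal (b₀ + 1) := by
      intro r _
      rw [ENNReal.ofReal_add hb₀0 zero_le_one, ENNReal.ofReal_one]
      refine add_le_add ?_ le_rfl
      refine (RI_cardE78 e hB hX _).trans (ENNReal.ofReal_le_ofReal ?_)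
      have h2 : ((arc 0 (arc 0 (cn N) (M ^ m₀) r₀) (M ^ m₂) r).card : ℝ) ≤ 196 * K₁ ^ 2 := by
        have h3 : Cone N 2 (arc 0 (arc 0 (cn N) (M ^ m₀) r₀) (M ^ m₂) r) := fun k hk => (hB1 hN).1 k (hGcn (mem_arc.1 hk).1)
        have h4 := card_le hN1 (by norm_num) h3
        have h5 : (N : ℝ) ≤ K₁ := by
          have : (N : ℝ) ≤ X * N := le_mul_of_one_le_left (by linarith) hX
          linarith
        calc ((arc 0 (arc 0 (cn N) (M ^ m₀) r₀) (M ^ m₂) r).card : ℝ) ≤ 49 * 2 ^ 2 * (N : ℝ) ^ 2 := h4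
          _ = 196 * (N : ℝ) ^ 2 := by ring
          _ ≤ 196 * K₁ ^ 2 := by gcongr
      rw [hb₀]
      have h3 : X ≤ K₁ := by linarith
      gcongr
    refine (SS_le78 (by positivity) h1).trans (ENNReal.ofReal_le_ofReal ?_)
    have h2 : (P.card : ℝ) ≤ K₁ := by
      have : y ≤ y ^ 4 := le_self_pow₀ hy1' (by norm_num)
      linarith
    calc (P.card : ℝ) ^ 6 * (b₀ + 1) ≤ K₁ ^ 6 * (b₀ + 1) := by gcongr
      _ ≤ K₁ ^ 6 * (b₀ + 1) * ((Cn * FR X N) * X ^ η) := by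
        refine le_mul_of_one_le_right (by positivity) ?_
        exact one_le_mul_of_one_le_of_one_le n6 hXη
      _ = D₁ * (X ^ η * FR X N) := by rw [hD₁]; ring
      _ ≤ (D₁ + D₂ + D₃) * (X ^ η * FR X N) := mul_le_mul_of_nonneg_right (by linarith) hF0
      _ = (D₁ + D₂ + D₃) * X ^ η * FR X N := by ring
  · obtain ⟨hKa, hKb⟩ := hK₀ (X * N) (hK₁0.trans hge)
    have hy3 : 3 ≤ (M : ℝ) ^ m₂ := by
      rw [← hy]
      have h1 : (3 * (M : ℝ)) ^ 4 < (y * M) ^ 4 := by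
        rw [mul_pow y]
        exact lt_of_le_of_lt hKb hy4b
      have h2 := lt_of_pow_lt_pow_left₀ 4 (by positivity) h1
      exact (lt_of_mul_lt_mul_right h2 (by linarith)).le
    have hcount : (P.card : ℝ) ≤ c₁ * (1 + A ^ 2 * (1 / (M : ℝ) ^ m₀)) := by
      have h1 := hcnt (M ^ m₀) (M ^ m₂) r₀ A (Nat.one_le_pow _ _ (by omega)) (Nat.pow_le_pow_right (by omega) hpar.m) hA
      have h2 : (((M ^ m₀ : ℕ) : ℕ) : ℝ) = (M : ℝ) ^ m₀ := by push_cast; rfl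
      rw [← h2]
      refine le_trans ?_ h1
      refine Nat.cast_le.2 (Finset.card_le_card fun r hr => ?_)
      obtain ⟨p1, n, p2, p3, p4, -, p5⟩ := hP r hr
      rw [Finset.mem_filter]
      exact ⟨hPr hr, p1, n, p2, p3, p4, p5⟩
    have hz0 : 0 < (M : ℝ) ^ m₀ := by positivity
    rcases le_or_gt (A ^ 2) ((M : ℝ) ^ m₀) with hcase | hcase
    · have h1 : (P.card : ℝ) ≤ 2 * c₁ := by
        have h2 : A ^ 2 * (1 / (M : ℝ) ^ m₀) ≤ 1 := by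
          rw [mul_one_div, div_le_one hz0]
          exact hcase
        calc (P.card : ℝ) ≤ c₁ * (1 + A ^ 2 * (1 / (M : ℝ) ^ m₀)) := hcount
          _ ≤ c₁ * (1 + 1) := by gcongr
          _ = 2 * c₁ := by ring
      refine (caseOne78 hB1 hM hη hCq hCn hq hnum hX hN hNX hpar.hi hGcn hy3 hy4 hy4' h1).trans (ENNReal.ofReal_le_ofReal ?_)
      calc (2 * c₁) ^ 6 * ((Cq * Cn + Cn) * X ^ η * FR X N) = D₂ * (X ^ η * FR X N) := by rw [hD₂]; ring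
        _ ≤ (D₁ + D₂ + D₃) * (X ^ η * FR X N) := mul_le_mul_of_nonneg_right (by linarith) hF0
        _ = (D₁ + D₂ + D₃) * X ^ η * FR X N := by ring
    · have h1 : (P.card : ℝ) ≤ 2 * c₁ * A ^ 2 * σ := by
        have h2 : 1 ≤ A ^ 2 * (1 / (M : ℝ) ^ m₀) := by
          rw [mul_one_div, one_le_div hz0]
          exact hcase.le
        have h3 : 1 / (M : ℝ) ^ m₀ ≤ σ := by
          rw [div_le_iff₀ hz0]
          exact hσ0
        calc (P.card : ℝ) ≤ c₁ * (1 + A ^ 2 * (1 / (M : ℝ) ^ m₀)) := hcount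
          _ ≤ c₁ * (A ^ 2 * (1 / (M : ℝ) ^ m₀) + A ^ 2 * (1 / (M : ℝ) ^ m₀)) := by gcongr
          _ ≤ c₁ * (A ^ 2 * σ + A ^ 2 * σ) := by gcongr
          _ = 2 * c₁ * A ^ 2 * σ := by ring
      refine (caseTwo78 hB1 hB2 hM hη hε₀ hCr hCn hβ1 hβ2 hβ3 hr hpar hA (by positivity) hKa hy3 h1 hPr n1 hn5 fun r hr => (hP r hr).2).trans
        (ENNReal.ofReal_le_ofReal ?_)
      calc (2 * (2 * c₁) ^ 5 * Cr * Ge78 e ^ 4 * Cn + Cn) * X ^ η * FR X N = D₃ * (X ^ η * FR X N) := by rw [hD₃]; ring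
        _ ≤ (D₁ + D₂ + D₃) * (X ^ η * FR X N) := mul_le_mul_of_nonneg_right (by linarith) hF0
        _ = (D₁ + D₂ + D₃) * X ^ η * FR X N := by ring

end Pool.Agent.Helper60.RT
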